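import Pool.Agent.NH73.LD.Disc

/-!
# An inequality for an algebraic integer whose image under an integral polynomial is divisible by an
ideal
-/

set_option autoImplicit false

namespace Pool.Agent.NH73.EN

open Module NumberField Pool.Agent.H225R3.Marg Polynomial

/-! ### the exponents -/

lemma sum_c (D r m : ℕ) (hr : 0 < r) :
    2 * ∑ j ∈ Finset.range D, (m - j / r) ≤ r * (m * (m + 1)) := by
  induction m with
  | zero => simp
  | succ m ih =>
    have h1 : ∀ j, m + 1 - j / r = (m - j / r) + if j / r ≤ m then 1 else 0 := by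
      intro j
      split_ifs with h
      · omega
      · omega
    have h2 : ∑ j ∈ Finset.range D, (if j / r ≤ m then 1 else 0) ≤ r * (m + 1) := by
      rw [← Finset.sum_filter, ← Finset.card_eq_sum_ones]
      have h3 : (Finset.range D).filter (fun j => j / r ≤ m) ⊆ Finset.range (r * (m + 1)) := by
        intro j hj
        rw [Finset.mem_filter] at hj
        rw [Finset.mem_range, mul_comm]
        exact (Nat.div_lt_iff_lt_mul hr).1 (Nat.lt_succ_of_le hj.2)
      refine (Finset.card_le_card h3).trans ?_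
      rw [Finset.card_range]
    rw [Finset.sum_congr rfl fun j _ => h1 j, Finset.sum_add_distrib]
    calc 2 * (∑ j ∈ Finset.range D, (m - j / r) + ∑ j ∈ Finset.range D, if j / r ≤ m then 1 else 0)
        ≤ r * (m * (m + 1)) + 2 * (r * (m + 1)) := by
          have := Nat.mul_le_mul_left 2 h2
          omega
      _ = r * ((m + 1) * (m + 1 + 1)) := by ring

/-! ### the polynomials -/

/-- the polynomials `X ^ (j % r) * g ^ (j / r)` -/
noncomputable def pl (g : ℤ[X]) (j : ℕ) : ℤ[X] := X ^ (j % g.natDegree) * g ^ (j / g.natDegree)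

lemma pl_monic {g : ℤ[X]} (hg : g.Monic) (j : ℕ) : (pl g j).Monic :=
  (monic_X_pow _).mul (hg.pow _)

lemma pl_natDegree {g : ℤ[X]} (hg : g.Monic) (j : ℕ) : (pl g j).natDegree = j := by
  unfold pl
  rw [(monic_X_pow _).natDegree_mul (hg.pow _), natDegree_X_pow, hg.natDegree_pow]
  exact Nat.mod_add_div' j _

variable {M : Type} [Field M] [NumberField M]

lemma pl_mem {g : ℤ[X]} {J : Ideal (𝓞 M)} {α : 𝓞 M} {N : ℕ} (hN : (N : 𝓞 M) ∈ J)
    (hg : aeval α g ∈ J) (m j : ℕ) :
    (N : 𝓞 M) ^ (m - j / g.natDegree) * aeval α (pl g j) ∈ J ^ m := by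
  unfold pl
  rw [map_mul, map_pow, map_pow]
  have h1 : (N : 𝓞 M) ^ (m - j / g.natDegree) ∈ J ^ (m - j / g.natDegree) :=
    Ideal.pow_mem_pow hN _
  have h2 : (aeval α g) ^ (j / g.natDegree) ∈ J ^ (j / g.natDegree) := Ideal.pow_mem_pow hg _
  rw [mul_left_comm]
  refine Ideal.mul_mem_left _ _ ?_
  have h4 := Ideal.mul_mem_mul h1 h2
  rw [← pow_add] at h4
  exact Ideal.pow_le_pow_right (by omega) h4

/-! ### the lattice -/

/-- the determinant of elements of an ideal -/
lemma det_ge {D : ℕ} (hD : finrank ℚ M = D) (e : Fin D ≃ (M →ₐ[ℚ] ℂ)) (J : Ideal (𝓞 M))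
    (hJ : J ≠ ⊥) (u : Fin D → 𝓞 M) (hu : ∀ i, u i ∈ J)
    (hdet : (Matrix.of fun i j => emb (e j : M →+* ℂ) (u i)).det ≠ 0) :
    (Ideal.absNorm J : ℝ) ≤ ‖(Matrix.of fun i j => emb (e j : M →+* ℂ) (u i)).det‖ := by
  classical
  have hcard : Fintype.card (Free.ChooseBasisIndex ℤ (𝓞 M)) = Fintype.card (Fin D) := by
    rw [← finrank_eq_card_basis (integralBasis M), hD, Fintype.card_fin]
  let e0 := Fintype.equivOfCardEq hcard
  let ω : Basis (Fin D) ℤ (𝓞 M) := (RingOfIntegers.basis M).reindex e0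
  let bJ : Basis (Fin D) ℤ J := J.selfBasis ω hJ
  let C : Matrix (Fin D) (Fin D) ℤ := fun l i => bJ.repr ⟨u i, hu i⟩ l
  let P : Matrix (Fin D) (Fin D) ℤ := ω.toMatrix fun l => (bJ l : 𝓞 M)
  let W : Matrix (Fin D) (Fin D) ℂ := Matrix.of fun i j => emb (e j : M →+* ℂ) (ω i)
  have hu1 : ∀ i, u i = ∑ l, (C l i : 𝓞 M) * (bJ l : 𝓞 M) := by
    intro i
    have h1 := congrArg (fun x : J => (x : 𝓞 M)) (bJ.sum_repr ⟨u i, hu i⟩)
    simp only at h1
    rw [← h1]
    push_cast
    refine Finset.sum_congr rfl fun l _ => ?_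
    rw [zsmul_eq_mul]
  have hb1 : ∀ l, (bJ l : 𝓞 M) = ∑ i, (P i l : 𝓞 M) * ω i := by
    intro l
    conv_lhs => rw [← ω.sum_repr (bJ l : 𝓞 M)]
    refine Finset.sum_congr rfl fun i _ => ?_
    rw [zsmul_eq_mul]
    rfl
  have hmat : (Matrix.of fun i j => emb (e j : M →+* ℂ) (u i)) =
      (C.map (Int.castRingHom ℂ)).transpose * ((P.map (Int.castRingHom ℂ)).transpose * W) := by
    ext i j
    rw [Matrix.mul_apply, Matrix.of_apply, hu1, map_sum]
    refine Finset.sum_congr rfl fun l _ => ?_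
    rw [map_mul, map_intCast, hb1, map_sum, Matrix.mul_apply]
    refine congrArg₂ (· * ·) rfl (Finset.sum_congr rfl fun i' _ => ?_)
    rw [map_mul, map_intCast]
    rfl
  have hdetP : |(P.det : ℝ)| = Ideal.absNorm J := by
    have h1 := Ideal.natAbs_det_basis_change ω J bJ
    have h2 : ω.det ((↑) ∘ bJ) = P.det := by
      rw [Basis.det_apply]
      rfl
    rw [h2] at h1
    rw [← h1, Nat.cast_natAbs]
    push_cast
    rfl
  have hW : 1 ≤ ‖W.det‖ := by
    let bQ : Basis (Fin D) ℚ M := (integralBasis M).reindex e0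
    have h1 := Algebra.discr_eq_det_embeddingsMatrixReindex_pow_two ℚ ℂ bQ e
    have h2 : Algebra.embeddingsMatrixReindex ℚ ℂ bQ e = W := by
      ext i j
      show (e j) (bQ i) = emb (e j : M →+* ℂ) (ω i)
      have h3 : bQ i = algebraMap (𝓞 M) M (ω i) := by
        show (integralBasis M).reindex e0 i = algebraMap (𝓞 M) M ((RingOfIntegers.basis M).reindex e0 i)
        rw [Basis.reindex_apply, Basis.reindex_apply, integralBasis_apply]
      rw [h3]
      rfl
    have h3 : Algebra.discr ℚ bQ = (discr M : ℚ) := by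
      have h4 : (bQ : Fin D → M) = integralBasis M ∘ e0.symm := by
        funext i
        exact Basis.reindex_apply _ _ _
      rw [h4, Algebra.discr_reindex, NumberField.coe_discr]
    rw [h2, h3] at h1
    have h4 : ‖((algebraMap ℚ ℂ) ((discr M : ℤ) : ℚ))‖ = |(discr M : ℝ)| := by
      rw [map_intCast, Complex.norm_intCast]
    rw [h1, norm_pow] at h4
    have h5 : (1 : ℝ) ≤ |(discr M : ℝ)| := by
      rw [← Int.cast_abs]
      exact_mod_cast Int.one_le_abs (NumberField.discr_ne_zero M)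
    rw [← h4] at h5
    by_contra h6
    push Not at h6
    have h7 := pow_lt_one₀ (norm_nonneg W.det) h6 two_ne_zero
    linarith
  have hdet2 : (Matrix.of fun i j => emb (e j : M →+* ℂ) (u i)).det =
      (C.det : ℂ) * ((P.det : ℂ) * W.det) := by
    rw [hmat, Matrix.det_mul, Matrix.det_mul, Matrix.det_transpose, Matrix.det_transpose]
    have hc : ∀ Q : Matrix (Fin D) (Fin D) ℤ, (Q.map (Int.castRingHom ℂ)).det = (Q.det : ℂ) := by
      intro Q
      have := (RingHom.map_det (Int.castRingHom ℂ) Q).symm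
      exact this
    rw [hc, hc]
  have hC0 : C.det ≠ 0 := by
    intro h
    rw [hdet2, h, Int.cast_zero, zero_mul] at hdet
    exact hdet rfl
  have hC1 : (1 : ℝ) ≤ |(C.det : ℝ)| := by
    rw [← Int.cast_abs]
    exact_mod_cast Int.one_le_abs hC0
  rw [hdet2, norm_mul, norm_mul, Complex.norm_intCast, Complex.norm_intCast, hdetP]
  have h0 : (0 : ℝ) ≤ Ideal.absNorm J := Nat.cast_nonneg _
  calc (Ideal.absNorm J : ℝ) = 1 * (Ideal.absNorm J * 1) := by ring
    _ ≤ |(C.det : ℝ)| * (Ideal.absNorm J * ‖W.det‖) := by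
      refine mul_le_mul hC1 ?_ (by positivity) (by positivity)
      exact mul_le_mul_of_nonneg_left hW h0

end Pool.Agent.NH73.EN
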