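import Pool.Agent.NH73.EN.Core

/-!
# The energy inequality
-/

set_option autoImplicit false

namespace Pool.Agent.NH73.EN

open Module NumberField Pool.Agent.H225R3.Marg Polynomial Pool.Agent.NH73.LD

lemma vander_le {D : ℕ} (v : Fin D → ℂ) : ‖(Matrix.vandermonde v).det‖ ^ 2 ≤
    (D : ℝ) ^ D * (∏ i, max 1 ‖v i‖) ^ (2 * (D - 1)) := by
  have h1 := hadamard_cols (Matrix.vandermonde v).transpose
  rw [Matrix.det_transpose] at h1
  refine h1.trans ?_
  have h2 : ∀ j : Fin D, ∑ i : Fin D, ‖(Matrix.vandermonde v).transpose i j‖ ^ 2 ≤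
      D * max 1 ‖v j‖ ^ (2 * (D - 1)) := by
    intro j
    have h3 : ∀ i ∈ (Finset.univ : Finset (Fin D)),
        ‖(Matrix.vandermonde v).transpose i j‖ ^ 2 ≤ max 1 ‖v j‖ ^ (2 * (D - 1)) := by
      intro i _
      rw [Matrix.transpose_apply, Matrix.vandermonde_apply, norm_pow, ← pow_mul]
      calc ‖v j‖ ^ ((i : ℕ) * 2) ≤ max 1 ‖v j‖ ^ ((i : ℕ) * 2) :=
            pow_le_pow_left₀ (norm_nonneg _) (le_max_right _ _) _
        _ ≤ _ := pow_le_pow_right₀ (le_max_left _ _) (by have := i.2; omega)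
    refine (Finset.sum_le_sum h3).trans (le_of_eq ?_)
    rw [Finset.sum_const, Finset.card_univ, Fintype.card_fin, nsmul_eq_mul]
  refine (Finset.prod_le_prod (fun j _ => Finset.sum_nonneg fun i _ => by positivity)
    fun j _ => h2 j).trans (le_of_eq ?_)
  rw [Finset.prod_mul_distrib, Finset.prod_const, Finset.card_univ, Fintype.card_fin,
    Finset.prod_pow]

variable {M : Type} [Field M] [NumberField M]

lemma emb_inj {α : 𝓞 M} (hα : IntermediateField.adjoin ℚ {(α : M)} = ⊤) (φ ψ : M →ₐ[ℚ] ℂ)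
    (h : emb (φ : M →+* ℂ) α = emb (ψ : M →+* ℂ) α) : φ = ψ := by
  have h1 : ∀ x : M, φ x = ψ x := by
    intro x
    have hx : x ∈ IntermediateField.adjoin ℚ {(α : M)} := by
      rw [hα]
      exact IntermediateField.mem_top
    induction hx using IntermediateField.adjoin_induction with
    | mem x hx =>
      rw [Set.mem_singleton_iff] at hx
      rw [hx]
      exact h
    | algebraMap x => rw [φ.commutes, ψ.commutes]
    | add x y _ _ hx hy => rw [map_add, map_add, hx, hy]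
    | inv x _ hx => rw [map_inv₀, map_inv₀, hx]
    | mul x y _ _ hx hy => rw [map_mul, map_mul, hx, hy]
  exact AlgHom.ext h1

/-- **The energy inequality.** -/
theorem energy (α : 𝓞 M) (hα : IntermediateField.adjoin ℚ {(α : M)} = ⊤) (g : ℤ[X])
    (hg : g.Monic) (hr : 0 < g.natDegree) (J : Ideal (𝓞 M)) (hJ : J ≠ ⊥) (N : ℕ) (hN : 1 ≤ N)
    (hNJ : (N : 𝓞 M) ∈ J) (hgJ : aeval α g ∈ J) (m : ℕ) :
    (Ideal.absNorm J : ℝ) ^ (2 * m) ≤ (N : ℝ) ^ (g.natDegree * (m * (m + 1))) *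
      ((finrank ℚ M : ℝ) ^ finrank ℚ M *
        (∏ τ : M →+* ℂ, max 1 ‖emb τ α‖) ^ (2 * (finrank ℚ M - 1))) := by
  classical
  obtain ⟨D, hD⟩ : ∃ D, finrank ℚ M = D := ⟨_, rfl⟩
  rw [hD]
  have hcard : Fintype.card (Fin D) = Fintype.card (M →ₐ[ℚ] ℂ) := by
    rw [Fintype.card_fin, ← hD, AlgHom.card ℚ M ℂ]
  set e : Fin D ≃ (M →ₐ[ℚ] ℂ) := Fintype.equivOfCardEq hcard with he
  set v : Fin D → ℂ := fun j => emb (e j : M →+* ℂ) α with hv
  have hvinj : Function.Injective v := fun i j hij => e.injective (emb_inj hα _ _ hij)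
  set u : Fin D → 𝓞 M := fun i =>
    (N : 𝓞 M) ^ (m - (i : ℕ) / g.natDegree) * aeval α (pl g i) with hu
  have hu1 : ∀ i, u i ∈ J ^ m := fun i => pl_mem hNJ hgJ m i
  have hp1 : ∀ (i j : Fin D), emb (e j : M →+* ℂ) (u i) =
      (N : ℂ) ^ (m - (i : ℕ) / g.natDegree) *
        ((pl g i).map (Int.castRingHom ℂ)).eval (v j) := by
    intro i j
    rw [hu, hv]
    simp only
    rw [map_mul, map_pow, map_natCast, eval_map, aeval_def, hom_eval₂]
    congr 2
    exact RingHom.ext_int _ _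
  have hmat : (Matrix.of fun i j => emb (e j : M →+* ℂ) (u i)) =
      Matrix.of fun (i j : Fin D) => (N : ℂ) ^ (m - (i : ℕ) / g.natDegree) *
        (Matrix.of fun i j => ((pl g j).map (Int.castRingHom ℂ)).eval (v i) :
          Matrix (Fin D) (Fin D) ℂ).transpose i j := by
    ext i j
    rw [Matrix.of_apply, Matrix.of_apply, hp1]
    rfl
  have hdet : (Matrix.of fun i j => emb (e j : M →+* ℂ) (u i)).det =
      (∏ i : Fin D, (N : ℂ) ^ (m - (i : ℕ) / g.natDegree)) * (Matrix.vandermonde v).det := by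
    rw [hmat, Matrix.det_mul_column, Matrix.det_transpose,
      Matrix.det_eval_matrixOfPolynomials_eq_det_vandermonde v
        (fun j => (pl g j).map (Int.castRingHom ℂ))
        (fun j => by rw [(pl_monic hg _).natDegree_map, pl_natDegree hg])
        (fun j => (pl_monic hg _).map _)]
  have hN0 : (N : ℂ) ≠ 0 := by
    have : N ≠ 0 := by omega
    exact_mod_cast this
  have hne : (Matrix.of fun i j => emb (e j : M →+* ℂ) (u i)).det ≠ 0 := by
    rw [hdet]
    refine mul_ne_zero (Finset.prod_ne_zero_iff.2 fun i _ => pow_ne_zero _ hN0) ?_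
    rw [Matrix.det_vandermonde_ne_zero_iff]
    exact hvinj
  have h1 := det_ge hD e (J ^ m) (pow_ne_zero m hJ) u hu1 hne
  rw [map_pow, Nat.cast_pow] at h1
  have h2 : (Ideal.absNorm J : ℝ) ^ (2 * m) ≤
      ‖(Matrix.of fun i j => emb (e j : M →+* ℂ) (u i)).det‖ ^ 2 := by
    rw [mul_comm, pow_mul]
    exact pow_le_pow_left₀ (by positivity) h1 2
  refine h2.trans ?_
  rw [hdet, norm_mul, mul_pow]
  have h3 : ‖∏ i : Fin D, (N : ℂ) ^ (m - (i : ℕ) / g.natDegree)‖ ^ 2 ≤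
      (N : ℝ) ^ (g.natDegree * (m * (m + 1))) := by
    rw [Finset.prod_pow_eq_pow_sum, norm_pow, Complex.norm_natCast, ← pow_mul, mul_comm _ 2,
      Fin.sum_univ_eq_sum_range fun j => m - j / g.natDegree]
    refine pow_le_pow_right₀ (by exact_mod_cast hN) ?_
    exact sum_c D g.natDegree m hr
  have h4 : ∏ i, max 1 ‖v i‖ = ∏ τ : M →+* ℂ, max 1 ‖emb τ α‖ :=
    Fintype.prod_equiv (e.trans (RingHom.equivRatAlgHom M ℂ).symm) _ _ fun x => rfl
  rw [← h4]
  exact mul_le_mul h3 (vander_le v) (by positivity) (by positivity)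

/-- the logarithmic form -/
theorem energy_log (α : 𝓞 M) (hα : IntermediateField.adjoin ℚ {(α : M)} = ⊤) (g : ℤ[X])
    (hg : g.Monic) (hr : 0 < g.natDegree) (J : Ideal (𝓞 M)) (hJ : J ≠ ⊥) (N : ℕ) (hN : 1 ≤ N)
    (hNJ : (N : 𝓞 M) ∈ J) (hgJ : aeval α g ∈ J) (m : ℕ) :
    2 * m * Real.log (Ideal.absNorm J) ≤ g.natDegree * (m * (m + 1)) * Real.log N +
      finrank ℚ M * Real.log (finrank ℚ M) +
        2 * finrank ℚ M * ∑ τ : M →+* ℂ, Real.log (max 1 ‖emb τ α‖) := by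
  have h1 := energy α hα g hg hr J hJ N hN hNJ hgJ m
  have hD : 0 < finrank ℚ M := finrank_pos
  have hDr : (0 : ℝ) < finrank ℚ M := by exact_mod_cast hD
  have hNr : (0 : ℝ) < N := by exact_mod_cast (by omega : 0 < N)
  have hJ0 : 0 < Ideal.absNorm J := Nat.pos_of_ne_zero (Ideal.absNorm_ne_zero_iff J |>.2
    (Ideal.finiteQuotientOfFreeOfNeBot J hJ))
  have hJr : (0 : ℝ) < Ideal.absNorm J := by exact_mod_cast hJ0
  have hmax : ∀ τ : M →+* ℂ, (0 : ℝ) < max 1 ‖emb τ α‖ := fun τ =>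
    lt_of_lt_of_le one_pos (le_max_left _ _)
  have hprod : (0 : ℝ) < ∏ τ : M →+* ℂ, max 1 ‖emb τ α‖ := Finset.prod_pos fun τ _ => hmax τ
  have h2 := Real.log_le_log (by positivity) h1
  rw [Real.log_pow, Real.log_mul (by positivity) (by positivity),
    Real.log_mul (by positivity) (by positivity), Real.log_pow, Real.log_pow, Real.log_pow,
    Real.log_prod fun τ _ => (hmax τ).ne'] at h2
  push_cast at h2
  have h3 : (0 : ℝ) ≤ ∑ τ : M →+* ℂ, Real.log (max 1 ‖emb τ α‖) :=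
    Finset.sum_nonneg fun τ _ => Real.log_nonneg (le_max_left _ _)
  have h4 : ((finrank ℚ M - 1 : ℕ) : ℝ) ≤ finrank ℚ M := by
    exact_mod_cast Nat.sub_le _ _
  have h5 : 2 * ((finrank ℚ M - 1 : ℕ) : ℝ) * ∑ τ : M →+* ℂ, Real.log (max 1 ‖emb τ α‖) ≤
      2 * finrank ℚ M * ∑ τ : M →+* ℂ, Real.log (max 1 ‖emb τ α‖) := by
    gcongr
  linarith

end Pool.Agent.NH73.EN
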