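import Mathlib

/-!
# The choice of the multiplicity
-/

set_option autoImplicit false

namespace Pool.Agent.NH73.EN

/-- the choice of `m` -/
lemma choose_m {La s r ν B : ℝ} (hLa : 0 ≤ La) (hs : 1 ≤ s) (hr : 1 ≤ r) (hν : 0 ≤ ν)
    (hν0 : ν = 0 → La = 0) (hB : 0 ≤ B)
    (h : ∀ m : ℕ, 2 * m * La ≤ s * (r * (m * (m + 1)) * ν + B)) :
    La ^ 2 ≤ 4 * s ^ 2 * r * ν * (B + r * ν) := by
  rcases hν.eq_or_lt with h0 | h0
  · rw [hν0 h0.symm, ← h0]
    simp
  set κ := s * r * ν with hκ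
  have hκ0 : 0 < κ := by positivity
  have hRHS : 4 * s ^ 2 * r * ν * (B + r * ν) = 4 * s * κ * B + 4 * κ ^ 2 := by
    rw [hκ]
    ring
  rw [hRHS]
  have hsκB : 0 ≤ s * κ * B := by positivity
  rcases lt_or_ge La (2 * κ) with h1 | h1
  · nlinarith
  · set m := ⌊La / κ⌋₊ with hm
    have hm1 : (m : ℝ) ≤ La / κ := Nat.floor_le (by positivity)
    have hm2 : La / κ < m + 1 := Nat.lt_floor_add_one _
    have hm3 : 2 ≤ m := by
      apply Nat.le_floor
      rw [le_div_iff₀ hκ0]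
      exact_mod_cast h1
    have hm3r : (2 : ℝ) ≤ m := by exact_mod_cast hm3
    rw [le_div_iff₀ hκ0] at hm1
    rw [div_lt_iff₀ hκ0] at hm2
    have h2 := h m
    have h3 : s * (r * (m * (m + 1)) * ν + B) = κ * m * (m + 1) + s * B := by
      rw [hκ]
      ring
    rw [h3] at h2
    have h4 : κ * m * (m + 1) ≤ La * (m + 1) := by
      have : (0 : ℝ) ≤ (m : ℝ) + 1 := by positivity
      nlinarith
    have h5 : ((m : ℝ) - 1) * La ≤ s * B := by linarith
    have h6 : La ≤ 3 * (m - 1) * κ := by nlinarith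
    have h7 : La * La ≤ La * (3 * (m - 1) * κ) := mul_le_mul_of_nonneg_left h6 hLa
    have h8 : La * (3 * (m - 1) * κ) = 3 * κ * ((m - 1) * La) := by ring
    have h9 : 3 * κ * ((m - 1) * La) ≤ 3 * κ * (s * B) :=
      mul_le_mul_of_nonneg_left h5 (by positivity)
    nlinarith

end Pool.Agent.NH73.EN
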