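import Pool.Agent.NH73.EN.Tr
import Pool.Agent.NH73.EN.Num

/-!
# The inequality for matrices
-/

set_option autoImplicit false

open Finset Polynomial Module NumberField IntermediateField

namespace Pool.Agent.NH73.EN

open Pool.Agent.H388SL Pool.Agent.Y399.RD Pool.Agent.H225R3.Marg Pool.Agent.TH53.HR

/-- from eigenvalues to matrices -/
theorem gap_of2 (k : Type) [Field k] [NumberField k] (n : ℕ) (S : Finset (k →+* ℂ))
    (A : Matrix (Fin n) (Fin n) (𝓞 k)) (P : ℝ → Prop)
    (hP : ∀ (L : Type) [Field L] [NumberField L] [Algebra k L] (x : 𝓞 L) (R : ℝ), x ≠ 0 →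
      (A.map (algebraMap (𝓞 k) (𝓞 L))).charpoly.eval x = 0 → (∀ m : ℕ, 0 < m → x ^ m ≠ 1) → 1 ≤ R →
      (∀ τ : L →+* ℂ, τ.comp (algebraMap k L) ∉ S → ‖τ (x : L)‖ ≤ 1) →
      (∀ τ : L →+* ℂ, ‖τ (x : L)‖ ≤ R) → finrank k L ≤ n → P R)
    (hA : IsUnit A)
    (hout : ∀ σ : k →+* ℂ, σ ∉ S → ∀ l : ℂ, ((emb σ).mapMatrix A).charpoly.IsRoot l → ‖l‖ ≤ 1)
    (hnil : ∀ N : ℕ, 0 < N → ¬ IsNilpotent (A ^ N - 1)) :
    ∃ σ ∈ S, ∃ l : ℂ, ((emb σ).mapMatrix A).charpoly.IsRoot l ∧ 1 < ‖l‖ ∧ P ‖l‖ := by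
  classical
  -- a root which is not a root of unity
  set f : 𝓞 k →+* AlgebraicClosure k :=
    (algebraMap k (AlgebraicClosure k)).comp (algebraMap (𝓞 k) k) with hf
  have hfinj : Function.Injective f :=
    (algebraMap k (AlgebraicClosure k)).injective.comp
      (FaithfulSMul.algebraMap_injective (𝓞 k) k)
  obtain ⟨l, hl, hlN⟩ : ∃ l, (A.charpoly.map f).IsRoot l ∧ ∀ N : ℕ, 0 < N → l ^ N ≠ 1 := by
    by_contra hcon
    push Not at hcon
    obtain ⟨N, hN, h⟩ := nilp_of_roots f hfinj A hcon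
    exact hnil N hN h
  have hspec : l ∈ spectrum (AlgebraicClosure k) (f.mapMatrix A) := by
    rw [Matrix.mem_spectrum_iff_isRoot_charpoly]
    have : (f.mapMatrix A).charpoly = A.charpoly.map f := by rw [← Matrix.charpoly_map]; rfl
    rw [this]
    exact hl
  have hl0 : l ≠ 0 := by
    rintro rfl
    exact (spectrum.zero_notMem_iff _).mpr (hA.map f.mapMatrix) hspec
  -- the field
  have hlint : IsIntegral k l := Algebra.IsIntegral.isIntegral l
  let L := IntermediateField.adjoin k {l}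
  haveI : FiniteDimensional k L := IntermediateField.adjoin.finiteDimensional hlint
  haveI : CharZero L := charZero_of_injective_algebraMap (algebraMap k L).injective
  haveI : NumberField L := NumberField.of_module_finite k L
  let x : L := ⟨l, IntermediateField.mem_adjoin_simple_self k l⟩
  have hxl : algebraMap L (AlgebraicClosure k) x = l := rfl
  set g : 𝓞 k →+* L := (algebraMap k L).comp (algebraMap (𝓞 k) k) with hg
  have hgf : (algebraMap L (AlgebraicClosure k)).comp g = f := by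
    rw [hg, hf, ← RingHom.comp_assoc]
    rfl
  have hx0 : eval₂ g x A.charpoly = 0 := by
    apply (algebraMap L (AlgebraicClosure k)).injective
    rw [map_zero, hom_eval₂, hgf, hxl]
    rw [IsRoot, eval_map] at hl
    exact hl
  have hxint : IsIntegral ℤ x := by
    have h1 : IsIntegral (𝓞 k) x := by
      refine ⟨A.charpoly, A.charpoly_monic, ?_⟩
      have : algebraMap (𝓞 k) L = g := rfl
      rw [this]
      exact hx0
    haveI : IsScalarTower ℤ (𝓞 k) L := IsScalarTower.of_algebraMap_eq' (RingHom.ext_int _ _)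
    exact isIntegral_trans x h1
  have hxne : x ≠ 0 := by
    intro h
    apply hl0
    rw [← hxl, h, map_zero]
  have hxroot : ∀ N : ℕ, 0 < N → x ^ N ≠ 1 := by
    intro N hN h
    apply hlN N hN
    rw [← hxl, ← map_pow, h, map_one]
  have hdeg : finrank k L ≤ n := by
    have h1 : finrank k L = (minpoly k l).natDegree := IntermediateField.adjoin.finrank hlint
    rw [h1]
    have h2 : (A.charpoly.map (algebraMap (𝓞 k) k)).Monic := A.charpoly_monic.map _
    have h3 : aeval l (A.charpoly.map (algebraMap (𝓞 k) k)) = 0 := by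
      rw [aeval_def, eval₂_map]
      rw [IsRoot, eval_map] at hl
      exact hl
    refine (natDegree_le_of_dvd (minpoly.dvd k l h3) h2.ne_zero).trans ?_
    rw [A.charpoly_monic.natDegree_map, Matrix.charpoly_natDegree_eq_dim, Fintype.card_fin]
  -- norms of the conjugates
  have hτroot : ∀ τ : L →+* ℂ,
      ((emb (τ.comp (algebraMap k L))).mapMatrix A).charpoly.IsRoot (τ x) := by
    intro τ
    have h1 : ((emb (τ.comp (algebraMap k L))).mapMatrix A).charpoly =
        A.charpoly.map (emb (τ.comp (algebraMap k L))) := by rw [← Matrix.charpoly_map]; rfl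
    rw [h1, IsRoot, eval_map]
    have h2 : emb (τ.comp (algebraMap k L)) = τ.comp g := rfl
    rw [h2, ← hom_eval₂, hx0, map_zero]
  have hτout : ∀ τ : L →+* ℂ, τ.comp (algebraMap k L) ∉ S → ‖τ x‖ ≤ 1 :=
    fun τ hτ => hout _ hτ _ (hτroot τ)
  obtain ⟨τ1, hτ1⟩ : ∃ τ1 : L →+* ℂ, 1 < ‖τ1 x‖ := by
    by_contra hcon
    push Not at hcon
    obtain ⟨N, hN, h⟩ := NumberField.Embeddings.pow_eq_one_of_norm_le_one L ℂ hxne hxint hcon
    exact hxroot N hN h
  obtain ⟨τ0, -, hmax⟩ := Finset.exists_max_image (univ : Finset (L →+* ℂ)) (fun τ => ‖τ x‖)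
    ⟨τ1, Finset.mem_univ _⟩
  have hτ0 : 1 < ‖τ0 x‖ := hτ1.trans_le (hmax τ1 (Finset.mem_univ _))
  have hmem : τ0.comp (algebraMap k L) ∈ S := by
    by_contra h
    exact absurd hτ0 (not_lt.mpr (hτout τ0 h))
  refine ⟨_, hmem, τ0 x, hτroot τ0, hτ0, ?_⟩
  let xi : 𝓞 L := ⟨x, hxint⟩
  have hxi : (xi : L) = x := rfl
  refine hP L xi ‖τ0 x‖ ?_ ?_ ?_ hτ0.le hτout (fun τ => hmax τ (Finset.mem_univ _)) hdeg
  · intro h
    apply hxne
    rw [← hxi, h]
    rfl
  · have h1 : (A.map (algebraMap (𝓞 k) (𝓞 L))).charpoly =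
        A.charpoly.map (algebraMap (𝓞 k) (𝓞 L)) := Matrix.charpoly_map A _
    rw [h1, eval_map]
    apply (FaithfulSMul.algebraMap_injective (𝓞 L) L)
    rw [map_zero, hom_eval₂]
    exact hx0
  · intro m hm h
    apply hxroot m hm
    rw [← hxi]
    have h1 := congrArg (algebraMap (𝓞 L) L) h
    rw [map_pow, map_one] at h1
    exact h1

/-- **The inequality.** -/
theorem bound (k : Type) [Field k] [NumberField k] (n : ℕ) (S : Finset (k →+* ℂ))
    (A : Matrix (Fin n) (Fin n) (𝓞 k)) (hA : IsUnit A)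
    (hout : ∀ σ : k →+* ℂ, σ ∉ S → ∀ l : ℂ, ((emb σ).mapMatrix A).charpoly.IsRoot l → ‖l‖ ≤ 1)
    (hnil : ∀ N : ℕ, 0 < N → ¬ IsNilpotent (A ^ N - 1)) :
    ∃ σ ∈ S, ∃ l : ℂ, ((emb σ).mapMatrix A).charpoly.IsRoot l ∧ 1 < ‖l‖ ∧
      ∀ (g : ℤ[X]) (t : ℕ) (I : Ideal (𝓞 k)) (N : ℕ), g.Monic → 0 < g.natDegree → 0 < t → I ≠ ⊥ →
        1 ≤ N → (N : 𝓞 k) ∈ I → (∀ i j, (aeval (A ^ t) g) i j ∈ I) →
        Real.log (Ideal.absNorm I) ^ 2 ≤ 4 * (S.card : ℝ) ^ 2 * g.natDegree * Real.log N *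
          (n * finrank ℚ k * Real.log (n * finrank ℚ k) +
            2 * n ^ 2 * finrank ℚ k * S.card * t * Real.log ‖l‖ + g.natDegree * Real.log N) := by
  classical
  refine gap_of2 k n S A (fun R => ∀ (g : ℤ[X]) (t : ℕ) (I : Ideal (𝓞 k)) (N : ℕ), g.Monic →
      0 < g.natDegree → 0 < t → I ≠ ⊥ →
        1 ≤ N → (N : 𝓞 k) ∈ I → (∀ i j, (aeval (A ^ t) g) i j ∈ I) →
        Real.log (Ideal.absNorm I) ^ 2 ≤ 4 * (S.card : ℝ) ^ 2 * g.natDegree * Real.log N *
          (n * finrank ℚ k * Real.log (n * finrank ℚ k) +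
            2 * n ^ 2 * finrank ℚ k * S.card * t * Real.log R + g.natDegree * Real.log N))
    ?_ hA hout hnil
  intro L _ _ _ x R hx0 hchar hxroot hR hτout hτin hdeg g t I N hg hr ht hI hN hNI hgI
  have hxL0 : (x : L) ≠ 0 := fun h => hx0 (RingOfIntegers.coe_eq_zero_iff.mp h)
  have hxLroot : ∀ m : ℕ, 0 < m → (x : L) ^ m ≠ 1 := fun m hm h => hxroot m hm
    (RingOfIntegers.ext (by simpa using h))
  -- `S` is not empty
  have hS : 1 ≤ S.card := by
    rw [Nat.one_le_iff_ne_zero]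
    intro h0
    rw [Finset.card_eq_zero] at h0
    obtain ⟨m, hm, h⟩ := NumberField.Embeddings.pow_eq_one_of_norm_le_one L ℂ hxL0
      (RingOfIntegers.isIntegral_coe x) (fun τ => hτout τ (by rw [h0]; exact Finset.notMem_empty _))
    exact hxLroot m hm h
  have hyn : ∀ τ : L →+* ℂ, ‖τ ((x ^ t : 𝓞 L) : L)‖ = ‖τ (x : L)‖ ^ t := fun τ => by
    rw [← norm_pow, ← map_pow]
    congr 2
  have hgx : aeval (x ^ t) g ∈ I.map (algebraMap (𝓞 k) (𝓞 L)) := by
    have h1 : aeval (x ^ t) g = aeval x (expand ℤ t g) := by rw [expand_aeval]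
    rw [h1]
    refine mem_map A _ I ?_ x hchar
    intro i j
    rw [expand_aeval]
    exact hgI i j
  have hmain := fun m : ℕ => main_L S (x ^ t) (R ^ t) (pow_ne_zero t hx0)
    (fun m hm => by
      rw [← pow_mul]
      exact hxroot _ (Nat.mul_pos ht hm)) (one_le_pow₀ hR)
    (fun τ hτ => by
      rw [hyn]
      exact pow_le_one₀ (norm_nonneg _) (hτout τ hτ))
    (fun τ => by
      rw [hyn]
      exact pow_le_pow_left₀ (norm_nonneg _) (hτin τ) t) g hg hr I hI N hN hNI hgx m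
  rw [Real.log_pow] at hmain
  have hk1 : (1 : ℝ) ≤ finrank ℚ k := by
    have : 0 < finrank ℚ k := finrank_pos
    exact_mod_cast this
  have hr1 : (1 : ℝ) ≤ finrank k L := by
    have : 0 < finrank k L := finrank_pos
    exact_mod_cast this
  have hdr : (finrank k L : ℝ) ≤ n := by exact_mod_cast hdeg
  have hn1 : (1 : ℝ) ≤ n := hr1.trans hdr
  have hLd : (finrank ℚ L : ℝ) ≤ n * finrank ℚ k := by
    have h1 : finrank ℚ L ≤ n * finrank ℚ k := by
      rw [← finrank_mul_finrank ℚ k L, mul_comm]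
      exact Nat.mul_le_mul_right _ hdeg
    exact_mod_cast h1
  have hL1 : (1 : ℝ) ≤ finrank ℚ L := by
    have : 0 < finrank ℚ L := finrank_pos
    exact_mod_cast this
  have hlogR : 0 ≤ Real.log R := Real.log_nonneg hR
  have hlogN : 0 ≤ Real.log N := Real.log_nonneg (by exact_mod_cast hN)
  have hSr : (1 : ℝ) ≤ S.card := by exact_mod_cast hS
  have hIpos : (1 : ℝ) ≤ Ideal.absNorm I := by
    have : 0 < Ideal.absNorm I := Nat.pos_of_ne_zero (Ideal.absNorm_ne_zero_iff I |>.2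
      (Ideal.finiteQuotientOfFreeOfNeBot I hI))
    exact_mod_cast this
  have hlognd : 0 ≤ Real.log (n * finrank ℚ k) := Real.log_nonneg (by nlinarith)
  refine choose_m (Real.log_nonneg hIpos) hSr (by exact_mod_cast hr) hlogN ?_ (by positivity) ?_
  · intro h0
    have h1 : N = 1 := by
      have h2 : (0 : ℝ) < N := by exact_mod_cast (by omega : 0 < N)
      have h3 := Real.eq_one_of_pos_of_log_eq_zero h2 h0
      exact_mod_cast h3
    have h2 : I = ⊤ := by
      rw [Ideal.eq_top_iff_one]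
      rw [h1, Nat.cast_one] at hNI
      exact hNI
    rw [h2, Ideal.absNorm_top]
    simp
  · intro m
    refine (hmain m).trans (mul_le_mul_of_nonneg_left ?_ (by positivity))
    have h1 : (finrank ℚ L : ℝ) * Real.log (finrank ℚ L) ≤
        n * finrank ℚ k * Real.log (n * finrank ℚ k) :=
      mul_le_mul hLd (Real.log_le_log (by linarith) hLd) (Real.log_nonneg hL1) (by positivity)
    have h2 : 2 * (finrank ℚ L : ℝ) * (S.card * finrank k L * (t * Real.log R)) ≤
        2 * n ^ 2 * finrank ℚ k * S.card * t * Real.log R := by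
      calc 2 * (finrank ℚ L : ℝ) * (S.card * finrank k L * (t * Real.log R))
          ≤ 2 * (n * finrank ℚ k) * (S.card * n * (t * Real.log R)) := by
            refine mul_le_mul (by linarith) ?_ (by positivity) (by positivity)
            gcongr
        _ = _ := by ring
    linarith

end Pool.Agent.NH73.EN
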