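import Pool.Agent.NH73.EN.Uni

/-!
# The gap for congruence levels
-/

set_option autoImplicit false

namespace Pool.Agent.NH73.EN

open Module NumberField Pool.Agent.H225R3.Marg Polynomial

section

variable {R : Type*} [CommRing R] {n : ℕ}

lemma one_add_pow (U : Matrix (Fin n) (Fin n) R) (N : ℕ) : ∃ V : Matrix (Fin n) (Fin n) R,
    (1 + U) ^ N = 1 + (N : Matrix (Fin n) (Fin n) R) * U + U * U * V := by
  induction N with
  | zero => exact ⟨0, by simp⟩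
  | succ N ih =>
    obtain ⟨V, hV⟩ := ih
    refine ⟨V + (N : Matrix (Fin n) (Fin n) R) + V * U, ?_⟩
    have hc : U * U * (N : Matrix (Fin n) (Fin n) R) = (N : Matrix (Fin n) (Fin n) R) * U * U := by
      rw [mul_assoc (N : Matrix (Fin n) (Fin n) R), (Nat.cast_commute N (U * U)).eq]
    rw [pow_succ, hV, Nat.cast_succ, mul_add (U * U), mul_add (U * U), hc]
    noncomm_ring

lemma liftN {J : Ideal R} {N : ℕ} (hN : (N : R) ∈ J) (X : Matrix (Fin n) (Fin n) R)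
    (h : MIn J (X - 1)) (i : ℕ) : MIn (J ^ (i + 1)) (X ^ N ^ i - 1) := by
  induction i with
  | zero =>
    simp only [pow_zero, pow_one, zero_add]
    exact h
  | succ i ih =>
    set U := X ^ N ^ i - 1 with hU
    obtain ⟨V, hV⟩ := one_add_pow U N
    have e1 : 1 + U = X ^ N ^ i := by rw [hU]; abel
    rw [e1] at hV
    have e2 : X ^ N ^ (i + 1) - 1 = (N : Matrix (Fin n) (Fin n) R) * U + U * U * V := by
      rw [pow_succ, pow_mul, hV]
      abel
    rw [e2]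
    refine MIn.add ?_ (MIn.mul_right (MIn.mono ?_ (ih.mul ih)) _)
    · intro a b
      rw [← nsmul_eq_mul, Matrix.smul_apply, nsmul_eq_mul, pow_succ' J (i + 1)]
      exact Ideal.mul_mem_mul hN (ih a b)
    · rw [← pow_add]
      exact Ideal.pow_le_pow_right (by omega)

end

/-- for one level -/
theorem uniL (N e n s : ℕ) (hN : 2 ≤ N) (he : 0 < e) (b : ℝ) (hb : 0 < b) : ∃ E : ℕ,
    ∀ (k : Type) [Field k] [NumberField k] (S : Finset (k →+* ℂ))
      (A : Matrix (Fin n) (Fin n) (𝓞 k)), S.card ≤ s →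
      (∃ I : Ideal (𝓞 k), (N : 𝓞 k) ∈ I ∧ MIn I (A ^ e - 1) ∧
        b * finrank ℚ k * Real.log (2 * finrank ℚ k) ≤ Real.log (Ideal.absNorm I) ^ 2) →
      IsUnit A →
      (∀ σ : k →+* ℂ, σ ∉ S → ∀ l : ℂ, ((emb σ).mapMatrix A).charpoly.IsRoot l → ‖l‖ ≤ 1) →
      (∀ N : ℕ, 0 < N → ¬ IsNilpotent (A ^ N - 1)) →
      ∃ σ ∈ S, ∃ l : ℂ, ((emb σ).mapMatrix A).charpoly.IsRoot l ∧ 1 < ‖l‖ ∧ 2 ≤ ‖l‖ ^ E := by
  classical
  have hl2 : 0 < Real.log 2 := Real.log_pos (by norm_num)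
  have hl2' : Real.log 2 < 1 := by
    have := Real.log_two_lt_d9
    linarith
  have hN1 : (1 : ℝ) < N := by exact_mod_cast (by omega : 1 < N)
  have hν : 0 < Real.log N := Real.log_pos hN1
  set K0 : ℝ := 4 * (s : ℝ) ^ 2 * 1 * Real.log N with hK0
  have hK00 : 0 ≤ K0 := by positivity
  set c0 : ℝ := Real.log 2 ^ 2 with hc0
  have hc00 : 0 < c0 := by positivity
  set b' : ℝ := b * Real.log 2 / c0 with hb'
  have hb'0 : 0 < b' := by positivity
  set C1 : ℝ := (n + 1) * (Real.log (n + 1) / Real.log 2 + 1) with hC1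
  have hlogn : 0 ≤ Real.log ((n : ℝ) + 1) := Real.log_nonneg (by
    have : (0 : ℝ) ≤ n := Nat.cast_nonneg _
    linarith)
  have hC10 : 0 ≤ C1 := by positivity
  set i : ℕ := ⌈4 * K0 * C1 / (c0 * b')⌉₊ with hi
  have hi1 : 4 * K0 * C1 ≤ ((i : ℝ) + 1) * (c0 * b') := by
    have h1 := Nat.le_ceil (4 * K0 * C1 / (c0 * b'))
    rw [← hi, div_le_iff₀ (by positivity)] at h1
    have h2 : 0 < c0 * b' := by positivity
    linarith
  set D0 : ℕ := ⌈4 * K0 * 1 * Real.log N / (c0 * b' * Real.log 2)⌉₊ with hD0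
  have hD01 : 4 * K0 * 1 * Real.log N ≤ c0 * b' * Real.log 2 * D0 := by
    have h1 := Nat.le_ceil (4 * K0 * 1 * Real.log N / (c0 * b' * Real.log 2))
    rw [← hD0, div_le_iff₀ (by positivity)] at h1
    linarith
  obtain ⟨E1, hE1⟩ := Pool.Agent.NH73.LD.bdd D0 n
  set P : ℝ := (e : ℝ) * (N : ℝ) ^ i with hP
  set Q : ℝ := 2 * K0 * n ^ 2 * s * P with hQ
  have hQ0 : 0 ≤ Q := by positivity
  set c1 : ℝ := ((i : ℝ) + 1) * c0 * b' / 2 with hc1
  have hc10 : 0 < c1 := by positivity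
  refine ⟨E1 + ⌈Q * Real.log 2 / c1⌉₊, ?_⟩
  intro k _ _ S A hs hlev hA hout hnil
  have hd0 : 0 < finrank ℚ k := finrank_pos
  rcases le_or_gt (finrank ℚ k) D0 with hd | hd
  · obtain ⟨σ, hσ, l, hl, hl1, h⟩ := hE1 k S A hd hA hout hnil
    exact ⟨σ, hσ, l, hl, hl1, h.trans (pow_le_pow_right₀ hl1.le (by omega))⟩
  obtain ⟨I, hNI, hAI, hsum⟩ := hlev
  obtain ⟨σ, hσ, l, hl, hl1, hbd⟩ := bound k n S A hA hout hnil
  refine ⟨σ, hσ, l, hl, hl1, ?_⟩
  have hI0 : I ≠ ⊥ := by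
    intro h
    rw [h, Ideal.mem_bot] at hNI
    have : N = 0 := by exact_mod_cast hNI
    omega
  have hlift := liftN hNI (A ^ e) hAI i
  have hmem : ∀ x y, (aeval (A ^ (e * N ^ i)) (X - 1 : ℤ[X])) x y ∈ I ^ (i + 1) := by
    intro x y
    have e1 : aeval (A ^ (e * N ^ i)) (X - 1 : ℤ[X]) = (A ^ e) ^ N ^ i - 1 := by
      rw [map_sub, aeval_X, map_one, pow_mul]
    rw [e1]
    exact hlift x y
  have hNI' : ((N ^ (i + 1) : ℕ) : 𝓞 k) ∈ I ^ (i + 1) := by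
    rw [Nat.cast_pow]
    exact Ideal.pow_mem_pow hNI _
  have hgd : (X - 1 : ℤ[X]).natDegree = 1 := by
    rw [← C_1]
    exact natDegree_X_sub_C 1
  have hgm : (X - 1 : ℤ[X]).Monic := by
    rw [← C_1]
    exact monic_X_sub_C 1
  have hmain := hbd (X - 1) (e * N ^ i) (I ^ (i + 1)) (N ^ (i + 1)) hgm (by rw [hgd]; omega)
    (Nat.mul_pos he (Nat.pow_pos (by omega))) (pow_ne_zero _ hI0) (Nat.pow_pos (by omega)) hNI' hmem
  rw [hgd, map_pow] at hmain
  have e1 : Real.log ((Ideal.absNorm I ^ (i + 1) : ℕ) : ℝ) =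
      ((i : ℝ) + 1) * Real.log (Ideal.absNorm I) := by
    rw [Nat.cast_pow, Real.log_pow]
    push_cast
    ring
  have e2 : Real.log ((N ^ (i + 1) : ℕ) : ℝ) = ((i : ℝ) + 1) * Real.log N := by
    rw [Nat.cast_pow, Real.log_pow]
    push_cast
    ring
  rw [e1, e2] at hmain
  have hla : 0 < Real.log ‖l‖ := Real.log_pos hl1
  have hd1 : (1 : ℝ) ≤ finrank ℚ k := by exact_mod_cast hd0
  have hn0 : (0 : ℝ) ≤ n := Nat.cast_nonneg _
  have hl2d : Real.log 2 ≤ Real.log (2 * (finrank ℚ k : ℝ)) :=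
    Real.log_le_log (by norm_num) (by linarith)
  have hLa0 : 0 ≤ Real.log (Ideal.absNorm I) := by
    have h1 : 1 ≤ Ideal.absNorm I := Nat.pos_of_ne_zero (Ideal.absNorm_ne_zero_iff I |>.2
      (Ideal.finiteQuotientOfFreeOfNeBot I hI0))
    exact Real.log_nonneg (by exact_mod_cast h1)
  set sg : ℝ := Real.log (Ideal.absNorm I) / Real.log 2 with hsg
  have hsg0 : 0 ≤ sg := by positivity
  have hsg2 : b' * finrank ℚ k * Real.log (2 * finrank ℚ k) ≤ sg ^ 2 := by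
    have h1 : sg ^ 2 = Real.log (Ideal.absNorm I) ^ 2 / c0 := by
      rw [hsg, hc0, div_pow]
    rw [h1, le_div_iff₀ hc00]
    have h2 : b' * finrank ℚ k * Real.log (2 * finrank ℚ k) * c0 =
        Real.log 2 * (b * finrank ℚ k * Real.log (2 * finrank ℚ k)) := by
      rw [hb']
      field_simp
    rw [h2]
    have h3 : 0 ≤ b * finrank ℚ k * Real.log (2 * finrank ℚ k) := by
      have : 0 ≤ Real.log (2 * (finrank ℚ k : ℝ)) := by linarith
      positivity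
    nlinarith
  have hsg3 : b' * finrank ℚ k * 1 ≤ sg ^ 2 := by
    have h1 : sg ^ 2 = Real.log (Ideal.absNorm I) ^ 2 / c0 := by
      rw [hsg, hc0, div_pow]
    rw [h1, le_div_iff₀ hc00]
    have h2 : b' * finrank ℚ k * 1 * c0 = b * finrank ℚ k * Real.log 2 := by
      rw [hb']
      field_simp
    rw [h2]
    refine le_trans ?_ hsum
    have : 0 ≤ b * finrank ℚ k := by positivity
    exact mul_le_mul_of_nonneg_left hl2d this
  have hnd : (n : ℝ) * Real.log (n * finrank ℚ k) ≤ C1 * Real.log (2 * finrank ℚ k) := by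
    rcases Nat.eq_zero_or_pos n with h0 | h0
    · rw [h0]
      have : 0 ≤ C1 * Real.log (2 * finrank ℚ k) := mul_nonneg hC10 (by linarith)
      simpa using this
    · have hn1 : (1 : ℝ) ≤ n := by exact_mod_cast h0
      have h1 : Real.log (n * finrank ℚ k) ≤ Real.log (n + 1) + Real.log (2 * finrank ℚ k) := by
        rw [← Real.log_mul (by positivity) (by positivity)]
        refine Real.log_le_log (by positivity) ?_
        nlinarith
      have h2 : Real.log ((n : ℝ) + 1) ≤ Real.log (n + 1) / Real.log 2 * Real.log (2 * finrank ℚ k) := by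
        rw [div_mul_eq_mul_div, le_div_iff₀ hl2]
        exact mul_le_mul_of_nonneg_left hl2d hlogn
      have h3 : Real.log (n * finrank ℚ k) ≤
          (Real.log (n + 1) / Real.log 2 + 1) * Real.log (2 * finrank ℚ k) := by
        rw [add_mul, one_mul]
        linarith
      have h4 : 0 ≤ (Real.log (n + 1) / Real.log 2 + 1) * Real.log (2 * finrank ℚ k) := by
        have : 0 ≤ Real.log (2 * (finrank ℚ k : ℝ)) := by linarith
        positivity
      calc (n : ℝ) * Real.log (n * finrank ℚ k)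
          ≤ n * ((Real.log (n + 1) / Real.log 2 + 1) * Real.log (2 * finrank ℚ k)) :=
            mul_le_mul_of_nonneg_left h3 hn0
        _ ≤ (n + 1) * ((Real.log (n + 1) / Real.log 2 + 1) * Real.log (2 * finrank ℚ k)) :=
            mul_le_mul_of_nonneg_right (by linarith) h4
        _ = _ := by rw [hC1]; ring
  have hfin := numer (La := Real.log (Ideal.absNorm I)) (sg := sg)
    (s0 := (S.card : ℝ)) (s := (s : ℝ)) (r := 1) (ν := Real.log N) (n := (n : ℝ))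
    (d := (finrank ℚ k : ℝ)) (t := ((e * N ^ i : ℕ) : ℝ)) (la := Real.log ‖l‖) (i := (i : ℝ))
    (b := b') (a := 1) (c0 := c0) (K0 := K0) (C1 := C1) (P := P) (D0 := (D0 : ℝ))
    (Nat.cast_nonneg _) (by exact_mod_cast hs) one_pos hν hd1 (Nat.cast_nonneg _) hla
    (Nat.cast_nonneg _) hb'0 one_pos hK0 hc0 (le_of_eq (by rw [hsg]; field_simp))
    hsg0 hnd hC10 hsg3 hsg2 (le_of_eq (by rw [hP]; push_cast; ring)) hi1 hD01
    (by exact_mod_cast hd.le) (by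
      refine hmain.trans (le_of_eq ?_)
      push_cast
      ring)
  -- the end
  have h1 : Real.log 2 ≤ ((⌈Q * Real.log 2 / c1⌉₊ : ℕ) : ℝ) * Real.log ‖l‖ := by
    have h2 := Nat.le_ceil (Q * Real.log 2 / c1)
    have h3 : Real.log 2 ≤ (Q * Real.log 2 / c1) * Real.log ‖l‖ := by
      rw [div_mul_eq_mul_div, le_div_iff₀ hc10]
      calc Real.log 2 * c1 ≤ Real.log 2 * (Q * Real.log ‖l‖) :=
            mul_le_mul_of_nonneg_left hfin hl2.le
        _ = _ := by ring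
    exact h3.trans (mul_le_mul_of_nonneg_right h2 hla.le)
  have h2 : (2 : ℝ) ≤ ‖l‖ ^ ⌈Q * Real.log 2 / c1⌉₊ := by
    rw [← Real.log_pow] at h1
    exact (Real.log_le_log_iff (by norm_num) (by positivity)).1 h1
  exact h2.trans (pow_le_pow_right₀ hl1.le (by omega))

/-- **The gap for levels.** -/
theorem lev (N0 e0 n s : ℕ) (b : ℝ) (hb : 0 < b) : ∃ E : ℕ, 0 < E ∧
    ∀ (k : Type) [Field k] [NumberField k] (S : Finset (k →+* ℂ))
      (A : Matrix (Fin n) (Fin n) (𝓞 k)), S.card ≤ s →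
      (∃ (N e : ℕ) (I : Ideal (𝓞 k)), 0 < N ∧ N ≤ N0 ∧ 0 < e ∧ e ≤ e0 ∧ (N : 𝓞 k) ∈ I ∧
        MIn I (A ^ e - 1) ∧
        b * finrank ℚ k * Real.log (2 * finrank ℚ k) ≤ Real.log (Ideal.absNorm I) ^ 2) →
      IsUnit A →
      (∀ σ : k →+* ℂ, σ ∉ S → ∀ l : ℂ, ((emb σ).mapMatrix A).charpoly.IsRoot l → ‖l‖ ≤ 1) →
      (∀ N : ℕ, 0 < N → ¬ IsNilpotent (A ^ N - 1)) →
      ∃ σ ∈ S, ∃ l : ℂ, ((emb σ).mapMatrix A).charpoly.IsRoot l ∧ 2 ≤ ‖l‖ ^ E := by
  classical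
  have h : ∀ x : ℕ × ℕ, ∃ E : ℕ, 2 ≤ x.1 → 0 < x.2 → ∀ (k : Type) [Field k] [NumberField k]
      (S : Finset (k →+* ℂ)) (A : Matrix (Fin n) (Fin n) (𝓞 k)), S.card ≤ s →
      (∃ I : Ideal (𝓞 k), (x.1 : 𝓞 k) ∈ I ∧ MIn I (A ^ x.2 - 1) ∧
        b * finrank ℚ k * Real.log (2 * finrank ℚ k) ≤ Real.log (Ideal.absNorm I) ^ 2) →
      IsUnit A →
      (∀ σ : k →+* ℂ, σ ∉ S → ∀ l : ℂ, ((emb σ).mapMatrix A).charpoly.IsRoot l → ‖l‖ ≤ 1) →
      (∀ N : ℕ, 0 < N → ¬ IsNilpotent (A ^ N - 1)) →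
      ∃ σ ∈ S, ∃ l : ℂ, ((emb σ).mapMatrix A).charpoly.IsRoot l ∧ 1 < ‖l‖ ∧ 2 ≤ ‖l‖ ^ E := by
    intro x
    by_cases hx : 2 ≤ x.1 ∧ 0 < x.2
    · obtain ⟨E, hE⟩ := uniL x.1 x.2 n s hx.1 hx.2 b hb
      exact ⟨E, fun _ _ => hE⟩
    · exact ⟨0, fun h1 h2 => absurd ⟨h1, h2⟩ hx⟩
  choose E hE using h
  refine ⟨∑ x ∈ Finset.range (N0 + 1) ×ˢ Finset.range (e0 + 1), E x + 1, Nat.succ_pos _, ?_⟩
  intro k _ _ S A hs hlev hA hout hnil
  obtain ⟨N, e, I, hN0, hN, he0, he, hNI, hAI, hsum⟩ := hlev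
  have hd1 : (1 : ℝ) ≤ finrank ℚ k := by
    have : 0 < finrank ℚ k := finrank_pos
    exact_mod_cast this
  have hN2 : 2 ≤ N := by
    by_contra hcon
    have h1 : N = 1 := by omega
    have h2 : I = ⊤ := by
      rw [Ideal.eq_top_iff_one]
      rw [h1, Nat.cast_one] at hNI
      exact hNI
    rw [h2, Ideal.absNorm_top, Nat.cast_one, Real.log_one] at hsum
    have h3 : 0 < Real.log (2 * (finrank ℚ k : ℝ)) := Real.log_pos (by linarith)
    have h4 : 0 < b * finrank ℚ k * Real.log (2 * (finrank ℚ k : ℝ)) := by positivity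
    norm_num at hsum
    linarith
  obtain ⟨σ, hσ, l, hl, hl1, h2⟩ := hE (N, e) hN2 he0 k S A hs ⟨I, hNI, hAI, hsum⟩ hA hout hnil
  refine ⟨σ, hσ, l, hl, h2.trans (pow_le_pow_right₀ hl1.le ?_)⟩
  have h3 : E (N, e) ≤ ∑ x ∈ Finset.range (N0 + 1) ×ˢ Finset.range (e0 + 1), E x :=
    Finset.single_le_sum (f := E) (fun _ _ => Nat.zero_le _)
      (Finset.mem_product.2 ⟨Finset.mem_range.2 (by omega), Finset.mem_range.2 (by omega)⟩)
  omega

end Pool.Agent.NH73.EN
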