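import Pool.Agent.NH73.EN.Pr
import Mathlib

/-!
# Prime ideals of small norm
-/

set_option autoImplicit false

namespace Pool.Agent.NH73.EN

open Module NumberField

variable {k : Type} [Field k] [NumberField k] {n : ℕ}

/-- modulo one prime ideal -/
lemma nil_mod (A : Matrix (Fin n) (Fin n) (𝓞 k)) {p q W : ℕ} (hp : p.Prime)
    (hW : ∀ i : ℕ, 0 < i → i ≤ q * n → i ∣ W) (P : Ideal (𝓞 k)) (hP : P.IsPrime) (hP0 : P ≠ ⊥)
    (hpP : (p : 𝓞 k) ∈ P) (hq : Ideal.absNorm P ≤ q) : MIn P ((A ^ p ^ W - A) ^ n) := by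
  classical
  haveI : P.IsMaximal := hP.isMaximal hP0
  letI : Field (𝓞 k ⧸ P) := Ideal.Quotient.field P
  haveI : Finite (𝓞 k ⧸ P) := Ideal.finiteQuotientOfFreeOfNeBot P hP0
  letI : Fintype (𝓞 k ⧸ P) := Fintype.ofFinite _
  have hchar : CharP (𝓞 k ⧸ P) p := by
    rw [CharP.charP_iff_prime_eq_zero hp]
    rw [← map_natCast (Ideal.Quotient.mk P)]
    exact Ideal.Quotient.eq_zero_iff_mem.2 hpP
  obtain ⟨f, -, hf⟩ := FiniteField.card (𝓞 k ⧸ P) p
  have hcard : Nat.card (𝓞 k ⧸ P) = p ^ (f : ℕ) := by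
    rw [Nat.card_eq_fintype_card, hf]
  have hfq : (f : ℕ) ≤ q := by
    have h1 : Ideal.absNorm P = p ^ (f : ℕ) := by
      rw [Ideal.absNorm_apply, Submodule.cardQuot_apply]
      exact hcard
    have h2 : (f : ℕ) < p ^ (f : ℕ) := Nat.lt_pow_self hp.one_lt
    omega
  have h1 := frob_nil ((Ideal.Quotient.mk P).mapMatrix A) hcard p f rfl (W := W) (fun i hi hin =>
    hW _ (Nat.mul_pos f.pos hi) (Nat.mul_le_mul hfq hin))
  intro i j
  rw [← Ideal.Quotient.eq_zero_iff_mem]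
  have h2 : (Ideal.Quotient.mk P).mapMatrix ((A ^ p ^ W - A) ^ n) =
      (((Ideal.Quotient.mk P).mapMatrix A) ^ p ^ W - (Ideal.Quotient.mk P).mapMatrix A) ^ n := by
    simp only [map_pow, map_sub]
  rw [h1] at h2
  exact congrFun (congrFun h2 i) j

/-- modulo a power of a prime ideal -/
lemma cong_one (A : Matrix (Fin n) (Fin n) (𝓞 k)) {p q W : ℕ} (hp : p.Prime)
    (hW : ∀ i : ℕ, 0 < i → i ≤ q * n → i ∣ W) (P : Ideal (𝓞 k)) (hP : P.IsPrime) (hP0 : P ≠ ⊥)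
    (hq : Ideal.absNorm P ≤ q) (c j : ℕ) (hc : (p : 𝓞 k) ∈ P ^ c) (hcj : n * c ≤ p ^ j) :
    MIn (P ^ c) ((A ^ p ^ W) ^ p ^ j - A ^ p ^ j) := by
  rcases Nat.eq_zero_or_pos c with rfl | hc0
  · intro a b
    rw [pow_zero, Ideal.one_eq_top]
    exact Submodule.mem_top
  have hpP : (p : 𝓞 k) ∈ P := Ideal.pow_le_self hc0.ne' hc
  have h1 := nil_mod A hp hW P hP hP0 hpP hq
  set T := A ^ p ^ W - A with hT
  have hcomm : Commute A T := by
    rw [hT]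
    exact ((Commute.refl A).pow_right _).sub_right (Commute.refl _)
  obtain ⟨r, hr⟩ := hcomm.exists_add_pow_prime_pow_eq hp j
  have e1 : A + T = A ^ p ^ W := by rw [hT]; abel
  rw [e1] at hr
  have e2 : (A ^ p ^ W) ^ p ^ j - A ^ p ^ j =
      (T ^ n) ^ c * T ^ (p ^ j - n * c) +
        (p : Matrix (Fin n) (Fin n) (𝓞 k)) * (A * T * r) := by
    rw [hr, ← pow_mul, ← pow_add, Nat.add_sub_cancel' hcj, mul_assoc, mul_assoc, mul_assoc]
    abel
  rw [e2]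
  exact ((h1.pow c).mul_right _).add (MIn.cast hc _)

/-- the product of powers of different primes -/
lemma mem_prod (T : Finset (Ideal (𝓞 k))) (c : Ideal (𝓞 k) → ℕ)
    (hT : ∀ P ∈ T, P.IsPrime ∧ P ≠ ⊥) (x : 𝓞 k) (hx : ∀ P ∈ T, x ∈ P ^ c P) :
    x ∈ ∏ P ∈ T, P ^ c P := by
  classical
  rw [← Ideal.span_singleton_le_iff_mem, ← Ideal.dvd_iff_le]
  refine Finset.prod_dvd_of_coprime ?_ ?_
  · intro P hP Q hQ hne
    have h1 : P.IsMaximal := (hT P hP).1.isMaximal (hT P hP).2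
    have h2 : Q.IsMaximal := (hT Q hQ).1.isMaximal (hT Q hQ).2
    have h3 : IsCoprime P Q := Ideal.isCoprime_iff_sup_eq.2 (h1.coprime_of_ne h2 hne)
    exact h3.pow
  · intro P hP
    rw [Ideal.dvd_iff_le, Ideal.span_singleton_le_iff_mem]
    exact hx P hP

/-- the norm of the product -/
lemma log_norm (T : Finset (Ideal (𝓞 k))) (c : Ideal (𝓞 k) → ℕ)
    (hT : ∀ P ∈ T, P.IsPrime ∧ P ≠ ⊥) : ∏ P ∈ T, P ^ c P ≠ ⊥ ∧
    Real.log 2 * ∑ P ∈ T, (c P : ℝ) ≤ Real.log (Ideal.absNorm (∏ P ∈ T, P ^ c P)) := by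
  classical
  have h0 : ∏ P ∈ T, P ^ c P ≠ (⊥ : Ideal (𝓞 k)) := by
    rw [← Ideal.zero_eq_bot, Finset.prod_ne_zero_iff]
    intro P hP
    exact pow_ne_zero _ (hT P hP).2
  refine ⟨h0, ?_⟩
  have h1 : ∀ P ∈ T, (2 : ℝ) ≤ Ideal.absNorm P := by
    intro P hP
    have h2 : Ideal.absNorm P ≠ 0 := Ideal.absNorm_ne_zero_iff P |>.2
      (Ideal.finiteQuotientOfFreeOfNeBot P (hT P hP).2)
    have h3 : Ideal.absNorm P ≠ 1 := fun h => (hT P hP).1.ne_top (Ideal.absNorm_eq_one_iff.1 h)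
    have : 2 ≤ Ideal.absNorm P := by omega
    exact_mod_cast this
  rw [map_prod, Nat.cast_prod, Real.log_prod]
  · rw [Finset.mul_sum]
    refine Finset.sum_le_sum fun P hP => ?_
    rw [map_pow, Nat.cast_pow, Real.log_pow, mul_comm]
    exact mul_le_mul_of_nonneg_left (Real.log_le_log (by norm_num) (h1 P hP)) (Nat.cast_nonneg _)
  · intro P hP
    rw [map_pow, Nat.cast_pow]
    have := h1 P hP
    positivity

end Pool.Agent.NH73.EN
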