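import Mathlib

/-!
# Congruences between powers of an integral matrix
-/

set_option autoImplicit false

namespace Pool.Agent.NH73.EN

open Module Polynomial

section

variable {R : Type*} [CommRing R] {n : ℕ}

/-- all the entries of `M` are in `I` -/
def MIn (I : Ideal R) (M : Matrix (Fin n) (Fin n) R) : Prop := ∀ i j, M i j ∈ I

lemma MIn.mul {I J : Ideal R} {M N : Matrix (Fin n) (Fin n) R} (hM : MIn I M) (hN : MIn J N) :
    MIn (I * J) (M * N) := fun i j => by
  rw [Matrix.mul_apply]
  exact Ideal.sum_mem _ fun k _ => Ideal.mul_mem_mul (hM i k) (hN k j)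

lemma MIn.mono {I J : Ideal R} (h : I ≤ J) {M : Matrix (Fin n) (Fin n) R} (hM : MIn I M) :
    MIn J M := fun i j => h (hM i j)

lemma MIn.mul_right {I : Ideal R} {M : Matrix (Fin n) (Fin n) R} (hM : MIn I M)
    (N : Matrix (Fin n) (Fin n) R) : MIn I (M * N) := fun i j => by
  rw [Matrix.mul_apply]
  exact Ideal.sum_mem _ fun k _ => Ideal.mul_mem_right _ _ (hM i k)

lemma MIn.mul_left {I : Ideal R} {M : Matrix (Fin n) (Fin n) R} (hM : MIn I M)
    (N : Matrix (Fin n) (Fin n) R) : MIn I (N * M) := fun i j => by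
  rw [Matrix.mul_apply]
  exact Ideal.sum_mem _ fun k _ => Ideal.mul_mem_left _ _ (hM k j)

lemma MIn.add {I : Ideal R} {M N : Matrix (Fin n) (Fin n) R} (hM : MIn I M) (hN : MIn I N) :
    MIn I (M + N) := fun i j => I.add_mem (hM i j) (hN i j)

lemma MIn.pow {I : Ideal R} {M : Matrix (Fin n) (Fin n) R} (hM : MIn I M) (m : ℕ) :
    MIn (I ^ m) (M ^ m) := by
  induction m with
  | zero =>
    intro i j
    rw [pow_zero, Ideal.one_eq_top]
    exact Submodule.mem_top
  | succ m ih =>
    rw [pow_succ, pow_succ]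
    exact ih.mul hM

lemma MIn.cast {I : Ideal R} {p : ℕ} (hp : (p : R) ∈ I) (M : Matrix (Fin n) (Fin n) R) :
    MIn I ((p : Matrix (Fin n) (Fin n) R) * M) := fun i j => by
  rw [← nsmul_eq_mul, Matrix.smul_apply, nsmul_eq_mul]
  exact I.mul_mem_right _ hp

/-- powers of two matrices congruent modulo `J` -/
lemma lift {J : Ideal R} {p : ℕ} (hp : p.Prime) (hpJ : (p : R) ∈ J)
    (X Y : Matrix (Fin n) (Fin n) R) (hXY : Commute X Y) (h : MIn J (X - Y)) (i : ℕ) :
    MIn (J ^ (i + 1)) (X ^ p ^ i - Y ^ p ^ i) := by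
  induction i with
  | zero =>
    simp only [pow_zero, pow_one, zero_add]
    exact h
  | succ i ih =>
    set U := X ^ p ^ i - Y ^ p ^ i with hU
    have hc : Commute (Y ^ p ^ i) U := by
      rw [hU]
      exact ((hXY.symm.pow_pow _ _).sub_right (Commute.refl _))
    obtain ⟨r, hr⟩ := hc.exists_add_pow_prime_eq hp
    have e1 : Y ^ p ^ i + U = X ^ p ^ i := by rw [hU]; abel
    rw [e1] at hr
    have e2 : X ^ p ^ (i + 1) - Y ^ p ^ (i + 1) =
        U ^ p + (p : Matrix (Fin n) (Fin n) R) * (Y ^ p ^ i * U * r) := by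
      rw [pow_succ, pow_mul, pow_mul, hr, mul_assoc, mul_assoc, mul_assoc]
      abel
    rw [e2]
    refine MIn.add ?_ ?_
    · obtain ⟨t, ht⟩ : ∃ t, p = t + 2 := ⟨p - 2, by have := hp.two_le; omega⟩
      have h1 : U ^ p = U * U * U ^ t := by
        rw [ht, pow_add, pow_two]
        exact ((Commute.refl U).pow_left t).mul_right ((Commute.refl U).pow_left t) |>.eq
      rw [h1]
      refine MIn.mul_right (MIn.mono ?_ (ih.mul ih)) _
      rw [← pow_add]
      exact Ideal.pow_le_pow_right (by omega)
    · have h1 : MIn (J ^ (i + 1)) (Y ^ p ^ i * U * r) := (ih.mul_left _).mul_right _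
      intro a b
      rw [← nsmul_eq_mul, Matrix.smul_apply, nsmul_eq_mul, pow_succ' J (i + 1)]
      exact Ideal.mul_mem_mul hpJ (h1 a b)

end

section

variable {F : Type} [Field F] [Finite F] {n : ℕ}

/-- the roots of the characteristic polynomial over a finite field -/
lemma root_pow (A : Matrix (Fin n) (Fin n) F) {q W : ℕ} (hq : Nat.card F = q) (p f : ℕ)
    (hqp : q = p ^ f) (hW : ∀ i : ℕ, 0 < i → i ≤ n → (f * i) ∣ W) (a : AlgebraicClosure F)
    (ha : (A.charpoly.map (algebraMap F (AlgebraicClosure F))).IsRoot a) : a ^ p ^ W = a := by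
  have hint : IsIntegral F a := Algebra.IsIntegral.isIntegral a
  let E := IntermediateField.adjoin F {a}
  haveI : FiniteDimensional F E := IntermediateField.adjoin.finiteDimensional hint
  have hfin : Finite E := Module.finite_of_finite F
  letI : Fintype E := Fintype.ofFinite E
  have hm : finrank F E = (minpoly F a).natDegree := IntermediateField.adjoin.finrank hint
  have hmn : finrank F E ≤ n := by
    rw [hm]
    have h1 : aeval a A.charpoly = 0 := by
      rw [IsRoot, eval_map] at ha
      exact ha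
    refine (natDegree_le_of_dvd (minpoly.dvd F a h1) A.charpoly_monic.ne_zero).trans ?_
    rw [Matrix.charpoly_natDegree_eq_dim, Fintype.card_fin]
  have hm0 : 0 < finrank F E := finrank_pos
  obtain ⟨t, ht⟩ := hW _ hm0 hmn
  have hcard : Fintype.card E = q ^ finrank F E := by
    rw [← Nat.card_eq_fintype_card, Module.natCard_eq_pow_finrank (K := F), hq]
  let x : E := ⟨a, IntermediateField.mem_adjoin_simple_self F a⟩
  have h1 := FiniteField.pow_card_pow t x
  rw [hcard, hqp, ← pow_mul, ← pow_mul, ← mul_assoc, ← ht] at h1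
  have h2 := congrArg (algebraMap E (AlgebraicClosure F)) h1
  rw [map_pow] at h2
  exact h2

/-- the matrix is almost equal to its power -/
lemma frob_nil (A : Matrix (Fin n) (Fin n) F) {q W : ℕ} (hq : Nat.card F = q) (p f : ℕ)
    (hqp : q = p ^ f) (hW : ∀ i : ℕ, 0 < i → i ≤ n → (f * i) ∣ W) :
    (A ^ p ^ W - A) ^ n = 0 := by
  classical
  set K := AlgebraicClosure F
  set h : F[X] := X ^ p ^ W - X with hh
  have h1 : ∀ s : Multiset K, (∀ a ∈ s, a ^ p ^ W = a) →
      (s.map fun a => X - C a).prod ∣ (h.map (algebraMap F K)) ^ (Multiset.card s) := by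
    intro s
    induction s using Multiset.induction_on with
    | empty => intro _; simp
    | cons a s ih =>
      intro hs
      rw [Multiset.map_cons, Multiset.prod_cons, Multiset.card_cons, pow_succ']
      refine mul_dvd_mul ?_ (ih fun b hb => hs b (Multiset.mem_cons_of_mem hb))
      rw [dvd_iff_isRoot, IsRoot, hh, Polynomial.map_sub, Polynomial.map_pow, map_X, eval_sub,
        eval_pow, eval_X, hs a (Multiset.mem_cons_self _ _), sub_self]
  have hsp : (A.charpoly.map (algebraMap F K)).Splits := IsAlgClosed.splits _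
  have h2 : A.charpoly.map (algebraMap F K) =
      ((A.charpoly.map (algebraMap F K)).roots.map fun a => X - C a).prod := by
    have h3 := hsp.eq_prod_roots
    rw [(A.charpoly_monic.map _).leadingCoeff, C_1, one_mul] at h3
    exact h3
  have hcard : Multiset.card (A.charpoly.map (algebraMap F K)).roots = n := by
    rw [← hsp.natDegree_eq_card_roots, A.charpoly_monic.natDegree_map,
      Matrix.charpoly_natDegree_eq_dim, Fintype.card_fin]
  have h3 : A.charpoly ∣ h ^ n := by
    rw [← Polynomial.map_dvd_map' (algebraMap F K), Polynomial.map_pow, h2]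
    have h4 := h1 (A.charpoly.map (algebraMap F K)).roots (fun a ha =>
      root_pow A hq p f hqp hW a ((mem_roots (A.charpoly_monic.map _).ne_zero).1 ha))
    rwa [hcard] at h4
  obtain ⟨c, hc⟩ := h3
  have h4 : aeval A (h ^ n) = 0 := by
    rw [hc, map_mul, Matrix.aeval_self_charpoly, zero_mul]
  rw [map_pow, hh, map_sub, map_pow, aeval_X] at h4
  exact h4

end

end Pool.Agent.NH73.EN
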