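import Pool.Agent.NH73.EN.Core2
import Pool.Agent.NH73.LD.Main
import Pool.Agent.Y399.MG.G

/-!
# From the number field generated by an eigenvalue to matrices
-/

set_option autoImplicit false

namespace Pool.Agent.NH73.EN

open Module NumberField Pool.Agent.H225R3.Marg Polynomial Pool.Agent.NH73.LD Pool.Agent.Y399.MG

/-- polynomials in a matrix act on eigenvectors -/
lemma aeval_mulVec {R : Type*} [CommRing R] {n : ℕ} (A : Matrix (Fin n) (Fin n) R) (x : R)
    (v : Fin n → R) (h : A.mulVec v = x • v) (g : ℤ[X]) :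
    (aeval A g).mulVec v = (aeval x g) • v := by
  induction g using Polynomial.induction_on' with
  | add p q hp hq => rw [map_add, map_add, Matrix.add_mulVec, hp, hq, add_smul]
  | monomial m a =>
    have h1 : ∀ m : ℕ, (A ^ m).mulVec v = (x ^ m) • v := by
      intro m
      induction m with
      | zero => rw [pow_zero, pow_zero, Matrix.one_mulVec, one_smul]
      | succ m ih =>
        rw [pow_succ, ← Matrix.mulVec_mulVec, h, Matrix.mulVec_smul, ih, smul_smul, pow_succ,
          mul_comm]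
    rw [aeval_monomial, aeval_monomial]
    have h2 : (algebraMap ℤ (Matrix (Fin n) (Fin n) R)) a = (a : R) • 1 := by
      rw [eq_intCast]
      ext i j
      rw [Matrix.smul_apply, Matrix.intCast_apply, Matrix.one_apply]
      split_ifs <;> simp
    rw [h2, Matrix.smul_mul, one_mul, Matrix.smul_mulVec, h1, smul_smul, eq_intCast]

section

variable {k L : Type} [Field k] [NumberField k] [Field L] [NumberField L] [Algebra k L] {n : ℕ}

lemma aeval_map_mat {R R' : Type*} [CommRing R] [CommRing R'] (f : R →+* R')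
    (A : Matrix (Fin n) (Fin n) R) (g : ℤ[X]) : aeval (A.map f) g = (aeval A g).map f := by
  have h1 := Polynomial.aeval_algHom_apply (R := ℤ) (f.mapMatrix (m := Fin n)).toIntAlgHom A g
  exact h1

/-- the value of the polynomial at an eigenvalue -/
lemma mem_map (A : Matrix (Fin n) (Fin n) (𝓞 k)) (g : ℤ[X]) (I : Ideal (𝓞 k))
    (hI : ∀ i j, (aeval A g) i j ∈ I) (x : 𝓞 L)
    (hx : (A.map (algebraMap (𝓞 k) (𝓞 L))).charpoly.eval x = 0) :
    aeval x g ∈ I.map (algebraMap (𝓞 k) (𝓞 L)) := by
  classical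
  set B := A.map (algebraMap (𝓞 k) (𝓞 L)) with hB
  have h1 : (Matrix.scalar (Fin n) x - B).det = 0 := by
    rw [← Matrix.eval_charpoly]
    exact hx
  obtain ⟨v, hv0, hv⟩ := Matrix.exists_mulVec_eq_zero_iff.2 h1
  have hBv : B.mulVec v = x • v := by
    rw [Matrix.sub_mulVec, sub_eq_zero] at hv
    rw [← hv]
    ext i
    simp [Matrix.scalar_apply]
  have h2 := aeval_mulVec B x v hBv g
  set V : Ideal (𝓞 L) := Ideal.span (Set.range v) with hV
  have hV0 : V ≠ ⊥ := by
    intro h
    apply hv0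
    funext i
    have h3 : v i ∈ V := Ideal.subset_span ⟨i, rfl⟩
    rw [h, Ideal.mem_bot] at h3
    exact h3
  have h3 : Ideal.span {aeval x g} * V ≤ I.map (algebraMap (𝓞 k) (𝓞 L)) * V := by
    rw [hV, Ideal.span_mul_span', Ideal.span_le]
    rintro z ⟨a, ha, b, ⟨i, rfl⟩, rfl⟩
    rw [Set.mem_singleton_iff] at ha
    subst ha
    have h4 := congrFun h2 i
    rw [Pi.smul_apply, smul_eq_mul] at h4
    show (aeval x g) * v i ∈ _
    rw [← h4]
    show ∑ j, (aeval B g) i j * v j ∈ _
    refine Ideal.sum_mem _ fun j _ => Ideal.mul_mem_mul ?_ (Ideal.subset_span ⟨j, rfl⟩)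
    rw [hB, aeval_map_mat]
    exact Ideal.mem_map_of_mem _ (hI i j)
  have h5 : I.map (algebraMap (𝓞 k) (𝓞 L)) ∣ Ideal.span {aeval x g} := by
    refine (mul_dvd_mul_iff_right (c := V) ?_).1 (Ideal.dvd_iff_le.2 h3)
    exact hV0
  exact Ideal.dvd_iff_le.1 h5 (Ideal.mem_span_singleton_self _)

/-- the inequality over `L` -/
theorem main_L (S : Finset (k →+* ℂ)) (x : 𝓞 L) (R : ℝ) (hx0 : x ≠ 0)
    (hroot : ∀ m : ℕ, 0 < m → x ^ m ≠ 1) (hR : 1 ≤ R)
    (hout : ∀ τ : L →+* ℂ, τ.comp (algebraMap k L) ∉ S → ‖τ (x : L)‖ ≤ 1)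
    (hin : ∀ τ : L →+* ℂ, ‖τ (x : L)‖ ≤ R) (g : ℤ[X]) (hg : g.Monic) (hr : 0 < g.natDegree)
    (I : Ideal (𝓞 k)) (hI : I ≠ ⊥) (N : ℕ) (hN : 1 ≤ N) (hNI : (N : 𝓞 k) ∈ I)
    (hgI : aeval x g ∈ I.map (algebraMap (𝓞 k) (𝓞 L))) (m : ℕ) :
    2 * m * Real.log (Ideal.absNorm I) ≤ S.card * (g.natDegree * (m * (m + 1)) * Real.log N +
      finrank ℚ L * Real.log (finrank ℚ L) +
        2 * finrank ℚ L * (S.card * finrank k L * Real.log R)) := by
  classical
  set M : IntermediateField ℚ L := IntermediateField.adjoin ℚ {(x : L)} with hM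
  have hxL0 : (x : L) ≠ 0 := fun h => hx0 (RingOfIntegers.coe_eq_zero_iff.mp h)
  have hxroot : ∀ m : ℕ, 0 < m → (x : L) ^ m ≠ 1 := fun m hm h => hroot m hm
    (RingOfIntegers.ext (by simpa using h))
  let z : M := ⟨(x : L), IntermediateField.mem_adjoin_simple_self ℚ (x : L)⟩
  have hzi : IsIntegral ℤ z := by
    have h1 : IsIntegral ℤ ((algebraMap M L) z) := RingOfIntegers.isIntegral_coe x
    exact (isIntegral_algebraMap_iff (algebraMap M L).injective).mp h1
  let α : 𝓞 M := ⟨z, hzi⟩
  have hαx : algebraMap (𝓞 M) (𝓞 L) α = x := RingOfIntegers.ext rfl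
  have hαgen : IntermediateField.adjoin ℚ {(α : M)} = ⊤ := by
    have h2 : IntermediateField.adjoin ℚ {(x : L)} ≤
        IntermediateField.lift (IntermediateField.adjoin ℚ {(α : M)}) := by
      rw [IntermediateField.adjoin_simple_le_iff]
      exact (IntermediateField.mem_lift (α : M)).mpr
        (IntermediateField.mem_adjoin_simple_self ℚ (α : M))
    rw [eq_top_iff]
    intro y _
    exact (IntermediateField.mem_lift y).mp (h2 y.2)
  set J : Ideal (𝓞 M) := (I.map (algebraMap (𝓞 k) (𝓞 L))).comap (algebraMap (𝓞 M) (𝓞 L))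
    with hJ
  have hNJ : (N : 𝓞 M) ∈ J := by
    rw [hJ, Ideal.mem_comap, map_natCast]
    have h1 := Ideal.mem_map_of_mem (algebraMap (𝓞 k) (𝓞 L)) hNI
    rwa [map_natCast] at h1
  have hJ0 : J ≠ ⊥ := by
    intro h
    rw [h, Ideal.mem_bot] at hNJ
    have : N = 0 := by exact_mod_cast hNJ
    omega
  have hgJ : aeval α g ∈ J := by
    rw [hJ, Ideal.mem_comap]
    have h1 : algebraMap (𝓞 M) (𝓞 L) (aeval α g) = aeval x g := by
      have h2 := Polynomial.aeval_algHom_apply (R := ℤ)
        (algebraMap (𝓞 M) (𝓞 L)).toIntAlgHom α g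
      have h3 : (algebraMap (𝓞 M) (𝓞 L)).toIntAlgHom α = x := hαx
      rw [h3] at h2
      exact h2.symm
    rw [h1]
    exact hgI
  have hE := energy_log α hαgen g hg hr J hJ0 N hN hNJ hgJ m
  -- degrees
  have hk0 : 0 < finrank k L := finrank_pos
  haveI : FiniteDimensional M L := FiniteDimensional.right ℚ M L
  have hM0 : 0 < finrank M L := finrank_pos
  have hML : finrank M L ≤ S.card * finrank k L := by
    have h1 := finrank_pow_le S (x : L) hxL0 (RingOfIntegers.isIntegral_coe x) hxroot hout 1 one_pos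
    rw [pow_one] at h1
    exact h1
  have hnorm : (finrank k L : ℝ) * Real.log (Ideal.absNorm I) ≤
      finrank M L * Real.log (Ideal.absNorm J) := by
    have h1 : Ideal.absNorm (I.map (algebraMap (𝓞 k) (𝓞 L))) =
        Ideal.absNorm I ^ finrank k L := by
      rw [Ideal.absNorm_algebraMap, ← IsFractionRing.finrank_eq (𝓞 k) k (𝓞 L) L]
    have h2 : Ideal.absNorm (J.map (algebraMap (𝓞 M) (𝓞 L))) =
        Ideal.absNorm J ^ finrank M L := by
      rw [Ideal.absNorm_algebraMap, ← IsFractionRing.finrank_eq (𝓞 M) M (𝓞 L) L]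
    have h3 : J.map (algebraMap (𝓞 M) (𝓞 L)) ≤ I.map (algebraMap (𝓞 k) (𝓞 L)) :=
      Ideal.map_comap_le
    have h4 := Ideal.absNorm_dvd_absNorm_of_le h3
    have hpos : ∀ {F : Type} [Field F] [NumberField F] (I : Ideal (𝓞 F)), I ≠ ⊥ →
        0 < Ideal.absNorm I := fun I hI => Nat.pos_of_ne_zero (Ideal.absNorm_ne_zero_iff I |>.2
          (Ideal.finiteQuotientOfFreeOfNeBot I hI))
    rw [h1, h2] at h4
    have h5 : Ideal.absNorm I ^ finrank k L ≤ Ideal.absNorm J ^ finrank M L :=
      Nat.le_of_dvd (pow_pos (hpos J hJ0) _) h4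
    rw [← Real.log_pow, ← Real.log_pow]
    refine Real.log_le_log ?_ (by exact_mod_cast h5)
    have : (0 : ℝ) < Ideal.absNorm I := by exact_mod_cast hpos I hI
    positivity
  -- the conjugates off the unit circle
  have hsum : ∑ τ : M →+* ℂ, Real.log (max 1 ‖emb τ α‖) ≤
      S.card * finrank k L * Real.log R := by
    set T : Finset (M →+* ℂ) := Finset.univ.filter fun τ => 1 < ‖emb τ α‖ with hT
    have hext : ∀ (τ : M →+* ℂ) (σ : L →+* ℂ), σ.comp (algebraMap M L) = τ →
        emb τ α = σ (x : L) := by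
      intro τ σ h
      rw [← h]
      rfl
    have h1 : ∑ τ : M →+* ℂ, Real.log (max 1 ‖emb τ α‖) ≤ ∑ τ ∈ T, Real.log R := by
      rw [← Finset.sum_subset (Finset.subset_univ T)]
      · refine Finset.sum_le_sum fun τ _ => ?_
        obtain ⟨σ, hσ⟩ := exists_ext M τ
        rw [hext τ σ hσ]
        exact Real.log_le_log (lt_of_lt_of_le one_pos (le_max_left _ _)) (max_le hR (hin σ))
      · intro τ _ hτ
        have h2 : ‖emb τ α‖ ≤ 1 := by
          by_contra h
          push Not at h
          exact hτ (Finset.mem_filter.2 ⟨Finset.mem_univ _, h⟩)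
        rw [max_eq_left h2, Real.log_one]
    have h2 : T.card ≤ S.card * finrank k L := by
      rw [← card_over (k := k) (L := L) S]
      refine Finset.card_le_card_of_injOn (fun τ => (exists_ext M τ).choose) ?_ ?_
      · intro τ hτ
        have h3 := (exists_ext M τ).choose_spec
        rw [Finset.mem_coe, Finset.mem_filter]
        refine ⟨Finset.mem_univ _, ?_⟩
        by_contra h4
        have h5 := hout _ h4
        rw [← hext τ _ h3] at h5
        exact absurd (Finset.mem_filter.1 hτ).2 (not_lt.2 h5)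
      · intro τ _ τ' _ h
        have h3 := (exists_ext M τ).choose_spec
        have h4 := (exists_ext M τ').choose_spec
        rw [← h3, ← h4]
        have h5 : (exists_ext M τ).choose = (exists_ext M τ').choose := h
        rw [h5]
    rw [Finset.sum_const, nsmul_eq_mul] at h1
    refine h1.trans (mul_le_mul_of_nonneg_right ?_ (Real.log_nonneg hR))
    exact_mod_cast h2
  -- the end
  have hDM : finrank ℚ M ≤ finrank ℚ L := by
    rw [← finrank_mul_finrank ℚ M L]
    exact Nat.le_mul_of_pos_right _ hM0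
  have hDM0 : (1 : ℝ) ≤ finrank ℚ M := by
    have : 0 < finrank ℚ M := finrank_pos
    exact_mod_cast this
  have hDMr : (finrank ℚ M : ℝ) ≤ finrank ℚ L := by exact_mod_cast hDM
  have hE2 : 2 * m * Real.log (Ideal.absNorm J) ≤ g.natDegree * (m * (m + 1)) * Real.log N +
      finrank ℚ L * Real.log (finrank ℚ L) +
        2 * finrank ℚ L * (S.card * finrank k L * Real.log R) := by
    have h1 : (finrank ℚ M : ℝ) * Real.log (finrank ℚ M) ≤ finrank ℚ L * Real.log (finrank ℚ L) :=
      mul_le_mul hDMr (Real.log_le_log (by linarith) hDMr) (Real.log_nonneg hDM0) (by positivity)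
    have h2 : 2 * finrank ℚ M * ∑ τ : M →+* ℂ, Real.log (max 1 ‖emb τ α‖) ≤
        2 * finrank ℚ L * (S.card * finrank k L * Real.log R) := by
      refine mul_le_mul (by linarith) hsum (Finset.sum_nonneg fun τ _ =>
        Real.log_nonneg (le_max_left _ _)) (by positivity)
    linarith
  set E : ℝ := g.natDegree * (m * (m + 1)) * Real.log N +
      finrank ℚ L * Real.log (finrank ℚ L) +
        2 * finrank ℚ L * (S.card * finrank k L * Real.log R) with hEdef
  have hN0 : (0 : ℝ) ≤ Real.log N := Real.log_nonneg (by exact_mod_cast hN)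
  have hE0 : 0 ≤ E := by
    have h1 : (0 : ℝ) ≤ Real.log (finrank ℚ L) := Real.log_nonneg (hDM0.trans hDMr)
    have h2 := Real.log_nonneg hR
    positivity
  have hk0r : (0 : ℝ) < finrank k L := by exact_mod_cast hk0
  have hM0r : (0 : ℝ) < finrank M L := by exact_mod_cast hM0
  have hMLr : (finrank M L : ℝ) ≤ S.card * finrank k L := by exact_mod_cast hML
  have h1 : (finrank k L : ℝ) * (2 * m * Real.log (Ideal.absNorm I)) ≤
      finrank k L * (S.card * E) := by
    calc (finrank k L : ℝ) * (2 * m * Real.log (Ideal.absNorm I))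
        = 2 * m * (finrank k L * Real.log (Ideal.absNorm I)) := by ring
      _ ≤ 2 * m * (finrank M L * Real.log (Ideal.absNorm J)) :=
          mul_le_mul_of_nonneg_left hnorm (by positivity)
      _ = finrank M L * (2 * m * Real.log (Ideal.absNorm J)) := by ring
      _ ≤ finrank M L * E := mul_le_mul_of_nonneg_left hE2 hM0r.le
      _ ≤ (S.card * finrank k L) * E := mul_le_mul_of_nonneg_right hMLr hE0
      _ = finrank k L * (S.card * E) := by ring
  exact le_of_mul_le_mul_left h1 hk0r

end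

end Pool.Agent.NH73.EN
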