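import Pool.Agent.NH73.EN.Gap
import Pool.Agent.NH73.EN.Pk
import Pool.Agent.NH73.LD.Gap

/-!
# The gap over fields with many small primes
-/

set_option autoImplicit false

namespace Pool.Agent.NH73.EN

open Module NumberField Pool.Agent.H225R3.Marg Polynomial

/-- There are a prime number `p`, a number `a ≥ 1` and prime ideals `P` of norm at most `q`, with
multiplicities `c P ≤ a` such that `p ∈ P ^ c P` (that is, `c P` is at most the ramification index of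
`P` over `p`), and the square of the sum of the `c P` is at least `b d max (a, log (2 d))`, where `d`
is the degree of `k`. -/
def SmallPrimes (q : ℕ) (b : ℝ) (k : Type) [Field k] [NumberField k] : Prop :=
  ∃ (p a : ℕ) (T : Finset (Ideal (𝓞 k))) (c : Ideal (𝓞 k) → ℕ), p.Prime ∧ p ≤ q ∧ 0 < a ∧
    (∀ P ∈ T, P.IsPrime ∧ P ≠ ⊥ ∧ Ideal.absNorm P ≤ q ∧ c P ≤ a ∧ (p : 𝓞 k) ∈ P ^ c P) ∧
    b * finrank ℚ k * max (a : ℝ) (Real.log (2 * finrank ℚ k)) ≤ (∑ P ∈ T, (c P : ℝ)) ^ 2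

lemma exists_pow {p x : ℕ} (hp : 2 ≤ p) (hx : 1 ≤ x) : ∃ j : ℕ, x ≤ p ^ j ∧ p ^ j ≤ p * x := by
  classical
  have h : ∃ j : ℕ, x ≤ p ^ j := ⟨x, (Nat.lt_pow_self (by omega)).le⟩
  refine ⟨Nat.find h, Nat.find_spec h, ?_⟩
  rcases Nat.eq_zero_or_pos (Nat.find h) with h0 | h0
  · rw [h0, pow_zero]
    nlinarith
  · obtain ⟨m, hm⟩ : ∃ m, Nat.find h = m + 1 := ⟨Nat.find h - 1, by omega⟩
    have h1 : ¬ x ≤ p ^ m := Nat.find_min h (by omega)
    rw [hm, pow_succ, mul_comm]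
    exact Nat.mul_le_mul_left _ (by omega)

/-- the numerical part -/
lemma numer {La sg s0 s r ν n d t la i b a c0 K0 C1 P D0 : ℝ}
    (hs0 : 0 ≤ s0) (hs : s0 ≤ s) (hr : 0 < r) (hν : 0 < ν) (hd : 1 ≤ d)
    (ht : 0 ≤ t) (hla : 0 < la) (hi : 0 ≤ i) (hb : 0 < b) (ha : 0 < a)
    (hK0 : K0 = 4 * s ^ 2 * r * ν) (hc0 : c0 = Real.log 2 ^ 2)
    (hLa : Real.log 2 * sg ≤ La) (hsg0 : 0 ≤ sg)
    (hC1 : n * Real.log (n * d) ≤ C1 * Real.log (2 * d)) (hC0 : 0 ≤ C1)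
    (hsga : b * d * a ≤ sg ^ 2) (hsgl : b * d * Real.log (2 * d) ≤ sg ^ 2)
    (htP : t ≤ P * a)
    (hiK : 4 * K0 * C1 ≤ (i + 1) * (c0 * b)) (hD0 : 4 * K0 * r * ν ≤ c0 * b * Real.log 2 * D0)
    (hD0d : D0 ≤ d)
    (hmain : ((i + 1) * La) ^ 2 ≤ 4 * s0 ^ 2 * r * ((i + 1) * ν) *
      (n * d * Real.log (n * d) + 2 * n ^ 2 * d * s0 * t * la + r * ((i + 1) * ν))) :
    (i + 1) * c0 * b / 2 ≤ (2 * K0 * n ^ 2 * s * P) * la := by
  have hl2 : 0 < Real.log 2 := Real.log_pos (by norm_num)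
  have hl2d : Real.log 2 ≤ Real.log (2 * d) := Real.log_le_log (by norm_num) (by linarith)
  have hK00 : 0 ≤ K0 := by rw [hK0]; positivity
  have hs' : 0 ≤ s := hs0.trans hs
  have hc00 : 0 < c0 := by rw [hc0]; positivity
  have hi1 : 0 < i + 1 := by linarith
  set Z := C1 * d * Real.log (2 * d) + 2 * n ^ 2 * d * s * t * la + r * ((i + 1) * ν) with hZ
  have hZ0 : 0 ≤ Z := by
    have : 0 ≤ Real.log (2 * d) := by linarith
    positivity
  -- step 1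
  have h1 : (i + 1) * La ^ 2 ≤ K0 * Z := by
    have h2 : n * d * Real.log (n * d) + 2 * n ^ 2 * d * s0 * t * la + r * ((i + 1) * ν) ≤ Z := by
      have h3 : n * d * Real.log (n * d) ≤ C1 * d * Real.log (2 * d) := by
        calc n * d * Real.log (n * d) = d * (n * Real.log (n * d)) := by ring
          _ ≤ d * (C1 * Real.log (2 * d)) := mul_le_mul_of_nonneg_left hC1 (by linarith)
          _ = _ := by ring
      have h4 : 2 * n ^ 2 * d * s0 * t * la ≤ 2 * n ^ 2 * d * s * t * la := by gcongr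
      linarith
    have h3 : 4 * s0 ^ 2 * r * ((i + 1) * ν) ≤ (i + 1) * K0 := by
      rw [hK0]
      have h4 : s0 ^ 2 ≤ s ^ 2 := pow_le_pow_left₀ hs0 hs 2
      have h5 : 0 ≤ 4 * r * ((i + 1) * ν) := by positivity
      nlinarith
    have h4 : ((i + 1) * La) ^ 2 ≤ (i + 1) * K0 * Z := by
      refine hmain.trans ((mul_le_mul_of_nonneg_left h2 (by positivity)).trans ?_)
      exact mul_le_mul_of_nonneg_right h3 hZ0
    have h5 : (i + 1) * ((i + 1) * La ^ 2) ≤ (i + 1) * (K0 * Z) := by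
      calc (i + 1) * ((i + 1) * La ^ 2) = ((i + 1) * La) ^ 2 := by ring
        _ ≤ (i + 1) * K0 * Z := h4
        _ = _ := by ring
    exact le_of_mul_le_mul_left h5 hi1
  -- step 2
  have h2 : c0 * sg ^ 2 ≤ La ^ 2 := by
    rw [hc0, ← mul_pow]
    exact pow_le_pow_left₀ (by positivity) hLa 2
  have h3 : (i + 1) * (c0 * sg ^ 2) ≤ K0 * Z := (mul_le_mul_of_nonneg_left h2 hi1.le).trans h1
  have hlog0 : 0 < Real.log (2 * d) := by linarith
  have h4 : K0 * (C1 * d * Real.log (2 * d)) ≤ (i + 1) * (c0 * sg ^ 2) / 4 := by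
    calc K0 * (C1 * d * Real.log (2 * d)) = (4 * K0 * C1) * (d * Real.log (2 * d)) / 4 := by ring
      _ ≤ ((i + 1) * (c0 * b)) * (d * Real.log (2 * d)) / 4 := by
          have : 0 ≤ d * Real.log (2 * d) := by positivity
          have := mul_le_mul_of_nonneg_right hiK this
          linarith
      _ = (i + 1) * (c0 * (b * d * Real.log (2 * d))) / 4 := by ring
      _ ≤ (i + 1) * (c0 * sg ^ 2) / 4 := by gcongr
  have h5 : K0 * (r * ((i + 1) * ν)) ≤ (i + 1) * (c0 * sg ^ 2) / 4 := by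
    calc K0 * (r * ((i + 1) * ν)) = (i + 1) * (4 * K0 * r * ν) / 4 := by ring
      _ ≤ (i + 1) * (c0 * b * Real.log 2 * D0) / 4 := by gcongr
      _ ≤ (i + 1) * (c0 * (b * d * Real.log (2 * d))) / 4 := by
          have h6 : Real.log 2 * D0 ≤ d * Real.log (2 * d) := by nlinarith
          have h7 : c0 * b * Real.log 2 * D0 ≤ c0 * (b * d * Real.log (2 * d)) := by
            have : 0 ≤ c0 * b := by positivity
            nlinarith
          gcongr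
      _ ≤ (i + 1) * (c0 * sg ^ 2) / 4 := by gcongr
  have h6 : (i + 1) * (c0 * sg ^ 2) / 2 ≤ K0 * (2 * n ^ 2 * d * s * t * la) := by
    have h7 : K0 * Z = K0 * (C1 * d * Real.log (2 * d)) + K0 * (2 * n ^ 2 * d * s * t * la) +
        K0 * (r * ((i + 1) * ν)) := by
      rw [hZ]
      ring
    rw [h7] at h3
    linarith
  -- step 3
  have h7 : (d * a) * ((i + 1) * c0 * b / 2) ≤ (d * a) * ((2 * K0 * n ^ 2 * s * P) * la) := by
    calc (d * a) * ((i + 1) * c0 * b / 2) = (i + 1) * (c0 * (b * d * a)) / 2 := by ring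
      _ ≤ (i + 1) * (c0 * sg ^ 2) / 2 := by gcongr
      _ ≤ K0 * (2 * n ^ 2 * d * s * t * la) := h6
      _ ≤ K0 * (2 * n ^ 2 * d * s * (P * a) * la) := by gcongr
      _ = _ := by ring
  exact le_of_mul_le_mul_left h7 (by positivity)

/-- for one prime number -/
theorem uniP (p q n s : ℕ) (hp : p.Prime) (b : ℝ) (hb : 0 < b) : ∃ E : ℕ,
    ∀ (k : Type) [Field k] [NumberField k] (S : Finset (k →+* ℂ))
      (A : Matrix (Fin n) (Fin n) (𝓞 k)), S.card ≤ s →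
      (∃ (a : ℕ) (T : Finset (Ideal (𝓞 k))) (c : Ideal (𝓞 k) → ℕ), 0 < a ∧
        (∀ P ∈ T, P.IsPrime ∧ P ≠ ⊥ ∧ Ideal.absNorm P ≤ q ∧ c P ≤ a ∧ (p : 𝓞 k) ∈ P ^ c P) ∧
        b * finrank ℚ k * max (a : ℝ) (Real.log (2 * finrank ℚ k)) ≤ (∑ P ∈ T, (c P : ℝ)) ^ 2) →
      IsUnit A →
      (∀ σ : k →+* ℂ, σ ∉ S → ∀ l : ℂ, ((emb σ).mapMatrix A).charpoly.IsRoot l → ‖l‖ ≤ 1) →
      (∀ N : ℕ, 0 < N → ¬ IsNilpotent (A ^ N - 1)) →
      ∃ σ ∈ S, ∃ l : ℂ, ((emb σ).mapMatrix A).charpoly.IsRoot l ∧ 1 < ‖l‖ ∧ 2 ≤ ‖l‖ ^ E := by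
  classical
  set W : ℕ := (q * n).factorial with hWdef
  have hW : ∀ i : ℕ, 0 < i → i ≤ q * n → i ∣ W := fun i hi hin => Nat.dvd_factorial hi hin
  have hW1 : 1 ≤ W := Nat.factorial_pos _
  have hpW : 1 < p ^ W := Nat.one_lt_pow (by omega) hp.one_lt
  have hl2 : 0 < Real.log 2 := Real.log_pos (by norm_num)
  have hp1 : (1 : ℝ) < p := by exact_mod_cast hp.one_lt
  have hν : 0 < Real.log p := Real.log_pos hp1
  set r : ℝ := ((p ^ W : ℕ) : ℝ) with hr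
  have hr0 : 0 < r := by
    rw [hr]
    exact_mod_cast (by omega : 0 < p ^ W)
  set K0 : ℝ := 4 * (s : ℝ) ^ 2 * r * Real.log p with hK0
  have hK00 : 0 ≤ K0 := by positivity
  set c0 : ℝ := Real.log 2 ^ 2 with hc0
  have hc00 : 0 < c0 := by positivity
  set C1 : ℝ := (n + 1) * (Real.log (n + 1) / Real.log 2 + 1) with hC1
  have hlogn : 0 ≤ Real.log ((n : ℝ) + 1) := Real.log_nonneg (by
    have : (0 : ℝ) ≤ n := Nat.cast_nonneg _
    linarith)
  have hC10 : 0 ≤ C1 := by positivity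
  set i : ℕ := ⌈4 * K0 * C1 / (c0 * b)⌉₊ with hi
  have hi1 : 4 * K0 * C1 ≤ ((i : ℝ) + 1) * (c0 * b) := by
    have h1 := Nat.le_ceil (4 * K0 * C1 / (c0 * b))
    rw [← hi, div_le_iff₀ (by positivity)] at h1
    have h2 : 0 < c0 * b := by positivity
    linarith
  set D0 : ℕ := ⌈4 * K0 * r * Real.log p / (c0 * b * Real.log 2)⌉₊ with hD0
  have hD01 : 4 * K0 * r * Real.log p ≤ c0 * b * Real.log 2 * D0 := by
    have h1 := Nat.le_ceil (4 * K0 * r * Real.log p / (c0 * b * Real.log 2))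
    rw [← hD0, div_le_iff₀ (by positivity)] at h1
    linarith
  obtain ⟨E1, hE1⟩ := Pool.Agent.NH73.LD.bdd D0 n
  set P : ℝ := (p : ℝ) ^ i * (p * (n + 1)) with hP
  set Q : ℝ := 2 * K0 * n ^ 2 * s * P with hQ
  have hQ0 : 0 ≤ Q := by positivity
  set c1 : ℝ := ((i : ℝ) + 1) * c0 * b / 2 with hc1
  have hc10 : 0 < c1 := by positivity
  refine ⟨E1 + ⌈Q * Real.log 2 / c1⌉₊, ?_⟩
  intro k _ _ S A hs hsmall hA hout hnil
  have hd0 : 0 < finrank ℚ k := finrank_pos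
  rcases le_or_gt (finrank ℚ k) D0 with hd | hd
  · obtain ⟨σ, hσ, l, hl, hl1, h⟩ := hE1 k S A hd hA hout hnil
    exact ⟨σ, hσ, l, hl, hl1, h.trans (pow_le_pow_right₀ hl1.le (by omega))⟩
  obtain ⟨a, T, c, ha, hT, hsum⟩ := hsmall
  obtain ⟨σ, hσ, l, hl, hl1, hb'⟩ := bound k n S A hA hout hnil
  refine ⟨σ, hσ, l, hl, hl1, ?_⟩
  obtain ⟨j, hj1, hj2⟩ := exists_pow (p := p) (x := (n + 1) * a) hp.two_le
    (Nat.mul_pos (Nat.succ_pos _) ha)
  have hT' : ∀ P ∈ T, P.IsPrime ∧ P ≠ ⊥ := fun P hP => ⟨(hT P hP).1, (hT P hP).2.1⟩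
  set I : Ideal (𝓞 k) := ∏ P ∈ T, P ^ c P with hI
  obtain ⟨hI0, hIlog⟩ := log_norm T c hT'
  rw [← hI] at hI0 hIlog
  have hpI : (p : 𝓞 k) ∈ I := mem_prod T c hT' _ fun P hP => (hT P hP).2.2.2.2
  have hXY : MIn I ((A ^ p ^ W) ^ p ^ j - A ^ p ^ j) := by
    intro x y
    refine mem_prod T c hT' _ fun P hP => ?_
    obtain ⟨h1, h2, h3, h4, h5⟩ := hT P hP
    refine cong_one A hp hW P h1 h2 h3 (c P) j h5 ?_ x y
    calc n * c P ≤ (n + 1) * a := Nat.mul_le_mul (Nat.le_succ n) h4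
      _ ≤ p ^ j := hj1
  have hcomm : Commute ((A ^ p ^ W) ^ p ^ j) (A ^ p ^ j) :=
    (((Commute.refl A).pow_left _).pow_left _).pow_right _
  have hlift := lift hp hpI _ _ hcomm hXY i
  set g : ℤ[X] := X ^ p ^ W - X with hg
  have hgm : g.Monic := by
    rw [hg]
    exact monic_X_pow_sub (by
      rw [degree_X]
      exact_mod_cast hpW)
  have hgd : g.natDegree = p ^ W := by
    rw [hg]
    refine natDegree_sub_eq_left_of_natDegree_lt ?_ |>.trans (natDegree_X_pow _)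
    rw [natDegree_X_pow, natDegree_X]
    exact hpW
  have hmem : ∀ x y, (aeval (A ^ (p ^ (j + i))) g) x y ∈ I ^ (i + 1) := by
    have e : aeval (A ^ (p ^ (j + i))) g =
        ((A ^ p ^ W) ^ p ^ j) ^ p ^ i - (A ^ p ^ j) ^ p ^ i := by
      rw [hg, map_sub, map_pow, aeval_X, ← pow_mul, ← pow_mul, ← pow_mul, ← pow_mul]
      congr 2
      · rw [pow_add]
        ring
      · rw [pow_add]
    intro x y
    rw [e]
    exact hlift x y
  have hNI : ((p ^ (i + 1) : ℕ) : 𝓞 k) ∈ I ^ (i + 1) := by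
    rw [Nat.cast_pow]
    exact Ideal.pow_mem_pow hpI _
  have hmain := hb' g (p ^ (j + i)) (I ^ (i + 1)) (p ^ (i + 1)) hgm (by rw [hgd]; omega)
    (Nat.pow_pos hp.pos) (pow_ne_zero _ hI0) (Nat.pow_pos hp.pos) hNI hmem
  rw [hgd, map_pow] at hmain
  have e1 : Real.log ((Ideal.absNorm I ^ (i + 1) : ℕ) : ℝ) =
      ((i : ℝ) + 1) * Real.log (Ideal.absNorm I) := by
    rw [Nat.cast_pow, Real.log_pow]
    push_cast
    ring
  have e2 : Real.log ((p ^ (i + 1) : ℕ) : ℝ) = ((i : ℝ) + 1) * Real.log p := by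
    rw [Nat.cast_pow, Real.log_pow]
    push_cast
    ring
  rw [e1, e2, ← hr] at hmain
  have hla : 0 < Real.log ‖l‖ := Real.log_pos hl1
  have hd1 : (1 : ℝ) ≤ finrank ℚ k := by exact_mod_cast hd0
  have hn0 : (0 : ℝ) ≤ n := Nat.cast_nonneg _
  have hmax1 : (a : ℝ) ≤ max (a : ℝ) (Real.log (2 * finrank ℚ k)) := le_max_left _ _
  have hmax2 : Real.log (2 * finrank ℚ k) ≤ max (a : ℝ) (Real.log (2 * finrank ℚ k)) :=
    le_max_right _ _
  have hbd : 0 < b * finrank ℚ k := by positivity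
  have hl2d : Real.log 2 ≤ Real.log (2 * (finrank ℚ k : ℝ)) :=
    Real.log_le_log (by norm_num) (by linarith)
  have hnd : (n : ℝ) * Real.log (n * finrank ℚ k) ≤ C1 * Real.log (2 * finrank ℚ k) := by
    rcases Nat.eq_zero_or_pos n with h0 | h0
    · rw [h0]
      have : 0 ≤ C1 * Real.log (2 * finrank ℚ k) := mul_nonneg hC10 (by linarith)
      simpa using this
    · have hn1 : (1 : ℝ) ≤ n := by exact_mod_cast h0
      have h1 : Real.log (n * finrank ℚ k) ≤ Real.log (n + 1) + Real.log (2 * finrank ℚ k) := by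
        rw [← Real.log_mul (by positivity) (by positivity)]
        refine Real.log_le_log (by positivity) ?_
        nlinarith
      have h2 : Real.log ((n : ℝ) + 1) ≤ Real.log (n + 1) / Real.log 2 * Real.log (2 * finrank ℚ k) := by
        rw [div_mul_eq_mul_div, le_div_iff₀ hl2]
        exact mul_le_mul_of_nonneg_left hl2d hlogn
      have h3 : Real.log (n * finrank ℚ k) ≤
          (Real.log (n + 1) / Real.log 2 + 1) * Real.log (2 * finrank ℚ k) := by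
        rw [add_mul, one_mul]
        linarith
      have h4 : 0 ≤ (Real.log (n + 1) / Real.log 2 + 1) * Real.log (2 * finrank ℚ k) := by
        have : 0 ≤ Real.log (2 * (finrank ℚ k : ℝ)) := by linarith
        positivity
      calc (n : ℝ) * Real.log (n * finrank ℚ k)
          ≤ n * ((Real.log (n + 1) / Real.log 2 + 1) * Real.log (2 * finrank ℚ k)) :=
            mul_le_mul_of_nonneg_left h3 hn0
        _ ≤ (n + 1) * ((Real.log (n + 1) / Real.log 2 + 1) * Real.log (2 * finrank ℚ k)) :=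
            mul_le_mul_of_nonneg_right (by linarith) h4
        _ = _ := by rw [hC1]; ring
  have htP : ((p ^ (j + i) : ℕ) : ℝ) ≤ P * a := by
    have h1 : ((p ^ j : ℕ) : ℝ) ≤ ((p * ((n + 1) * a) : ℕ) : ℝ) := by exact_mod_cast hj2
    rw [pow_add, Nat.cast_mul, hP]
    have h2 : (0 : ℝ) ≤ ((p ^ i : ℕ) : ℝ) := Nat.cast_nonneg _
    calc ((p ^ j : ℕ) : ℝ) * ((p ^ i : ℕ) : ℝ)
        ≤ ((p * ((n + 1) * a) : ℕ) : ℝ) * ((p ^ i : ℕ) : ℝ) :=
          mul_le_mul_of_nonneg_right h1 h2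
      _ = _ := by push_cast; ring
  have hfin := numer (La := Real.log (Ideal.absNorm I)) (sg := ∑ P ∈ T, (c P : ℝ))
    (s0 := (S.card : ℝ)) (s := (s : ℝ)) (r := r) (ν := Real.log p) (n := (n : ℝ))
    (d := (finrank ℚ k : ℝ)) (t := ((p ^ (j + i) : ℕ) : ℝ)) (la := Real.log ‖l‖) (i := (i : ℝ))
    (b := b) (a := (a : ℝ)) (c0 := c0) (K0 := K0) (C1 := C1) (P := P) (D0 := (D0 : ℝ))
    (Nat.cast_nonneg _) (by exact_mod_cast hs) hr0 hν hd1 (Nat.cast_nonneg _) hla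
    (Nat.cast_nonneg _) hb (by exact_mod_cast ha) hK0 hc0 hIlog
    (Finset.sum_nonneg fun _ _ => Nat.cast_nonneg _) hnd hC10
    ((mul_le_mul_of_nonneg_left hmax1 hbd.le).trans hsum)
    ((mul_le_mul_of_nonneg_left hmax2 hbd.le).trans hsum) htP hi1 hD01
    (by exact_mod_cast hd.le) (by
      refine hmain.trans (le_of_eq ?_)
      ring)
  -- the end
  have h1 : Real.log 2 ≤ ((⌈Q * Real.log 2 / c1⌉₊ : ℕ) : ℝ) * Real.log ‖l‖ := by
    have h2 := Nat.le_ceil (Q * Real.log 2 / c1)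
    have h3 : Real.log 2 ≤ (Q * Real.log 2 / c1) * Real.log ‖l‖ := by
      rw [div_mul_eq_mul_div, le_div_iff₀ hc10]
      calc Real.log 2 * c1 ≤ Real.log 2 * (Q * Real.log ‖l‖) :=
            mul_le_mul_of_nonneg_left hfin hl2.le
        _ = _ := by ring
    exact h3.trans (mul_le_mul_of_nonneg_right h2 hla.le)
  have h2 : (2 : ℝ) ≤ ‖l‖ ^ ⌈Q * Real.log 2 / c1⌉₊ := by
    rw [← Real.log_pow] at h1
    exact (Real.log_le_log_iff (by norm_num) (by positivity)).1 h1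
  exact h2.trans (pow_le_pow_right₀ hl1.le (by omega))

/-- **The gap over fields with many small primes.** -/
theorem uni (q n s : ℕ) (b : ℝ) (hb : 0 < b) : ∃ E : ℕ, 0 < E ∧
    ∀ (k : Type) [Field k] [NumberField k] (S : Finset (k →+* ℂ))
      (A : Matrix (Fin n) (Fin n) (𝓞 k)), S.card ≤ s → SmallPrimes q b k → IsUnit A →
      (∀ σ : k →+* ℂ, σ ∉ S → ∀ l : ℂ, ((emb σ).mapMatrix A).charpoly.IsRoot l → ‖l‖ ≤ 1) →
      (∀ N : ℕ, 0 < N → ¬ IsNilpotent (A ^ N - 1)) →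
      ∃ σ ∈ S, ∃ l : ℂ, ((emb σ).mapMatrix A).charpoly.IsRoot l ∧ 2 ≤ ‖l‖ ^ E := by
  classical
  have h : ∀ p : ℕ, ∃ E : ℕ, p.Prime → ∀ (k : Type) [Field k] [NumberField k]
      (S : Finset (k →+* ℂ)) (A : Matrix (Fin n) (Fin n) (𝓞 k)), S.card ≤ s →
      (∃ (a : ℕ) (T : Finset (Ideal (𝓞 k))) (c : Ideal (𝓞 k) → ℕ), 0 < a ∧
        (∀ P ∈ T, P.IsPrime ∧ P ≠ ⊥ ∧ Ideal.absNorm P ≤ q ∧ c P ≤ a ∧ (p : 𝓞 k) ∈ P ^ c P) ∧
        b * finrank ℚ k * max (a : ℝ) (Real.log (2 * finrank ℚ k)) ≤ (∑ P ∈ T, (c P : ℝ)) ^ 2) →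
      IsUnit A →
      (∀ σ : k →+* ℂ, σ ∉ S → ∀ l : ℂ, ((emb σ).mapMatrix A).charpoly.IsRoot l → ‖l‖ ≤ 1) →
      (∀ N : ℕ, 0 < N → ¬ IsNilpotent (A ^ N - 1)) →
      ∃ σ ∈ S, ∃ l : ℂ, ((emb σ).mapMatrix A).charpoly.IsRoot l ∧ 1 < ‖l‖ ∧ 2 ≤ ‖l‖ ^ E := by
    intro p
    by_cases hp : p.Prime
    · obtain ⟨E, hE⟩ := uniP p q n s hp b hb
      exact ⟨E, fun _ => hE⟩
    · exact ⟨0, fun h => absurd h hp⟩
  choose E hE using h
  refine ⟨∑ p ∈ Finset.range (q + 1), E p + 1, Nat.succ_pos _, ?_⟩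
  intro k _ _ S A hs hsmall hA hout hnil
  obtain ⟨p, a, T, c, hp, hpq, ha, hT, hsum⟩ := hsmall
  obtain ⟨σ, hσ, l, hl, hl1, h2⟩ := hE p hp k S A hs ⟨a, T, c, ha, hT, hsum⟩ hA hout hnil
  refine ⟨σ, hσ, l, hl, h2.trans (pow_le_pow_right₀ hl1.le ?_)⟩
  have h3 : E p ≤ ∑ p ∈ Finset.range (q + 1), E p :=
    Finset.single_le_sum (f := E) (fun _ _ => Nat.zero_le _) (Finset.mem_range.2 (by omega))
  omega

end Pool.Agent.NH73.EN
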